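import Pool.Agent.X267.Ord

set_option autoImplicit false

/-!
# Groups of exponent `a` as sections of groups generated by two elements of small order, II
-/

namespace Pool.Agent.X267.Wr

open Subgroup

universe u v

/-- the closure of a pair is finite if the wreath product section is -/
theorem half {n r : ℕ} (h : FinTwo (2 * n) 2 r) : FinTwo n r r := by
  intro W _ hW y1 y2 h1 h2
  let f : C 2 → W := fun v => if v = 1 then y1 else y2
  let x : W ≀ᵣ C 2 := cj 1 (sg 2)
  let y : W ≀ᵣ C 2 := ba f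
  have hf : ∀ v, f v ^ r = 1 := by
    intro v
    simp only [f]
    split_ifs
    · exact h1
    · exact h2
  have hy : y ^ r = 1 := by
    have h3 : ∀ k : ℕ, (ba f : W ≀ᵣ C 2) ^ k = ba (f ^ k) := by
      intro k
      induction k with
      | zero => rw [pow_zero, pow_zero]; rfl
      | succ k ih =>
        rw [pow_succ, ih]
        refine RegularWreathProduct.ext ?_ (by simp [ba])
        funext v
        simp [ba, pow_succ]
    rw [show y = ba f from rfl, h3]
    refine RegularWreathProduct.ext ?_ rfl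
    funext v
    exact hf v
  have hx : x ^ 2 = 1 := by rw [← map_pow, c_pow, map_one]
  have hfin := h (W ≀ᵣ C 2) (exp_wreath hW (c_pow 2)) x y hx hy
  have hc := finite_core _ hfin
  have hxm : x ∈ (closure ({x, y} : Set (W ≀ᵣ C 2))) := subset_closure (by simp)
  have hym : y ∈ (closure ({x, y} : Set (W ≀ᵣ C 2))) := subset_closure (by simp)
  have hle : closure {y1, y2} ≤ core (closure ({x, y} : Set (W ≀ᵣ C 2))) := by
    rw [closure_le]
    rintro w (rfl | rfl)
    · exact ⟨y, hym, rfl, by simp [y, ba, f]⟩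
    · refine ⟨x * y * x⁻¹, mul_mem (mul_mem hxm hym) (inv_mem hxm), ?_, ?_⟩
      · simp [x, y, ba, cj_right]
      · rw [show x⁻¹ = cj 1 (sg 2)⁻¹ from (map_inv _ _).symm]
        simp only [RegularWreathProduct.mul_left, Pi.mul_apply, RegularWreathProduct.mul_right, x, y,
          cj_right, io_left, mul_one, one_mul, ba, f]
        rw [if_neg (by decide)]
  exact Finite.of_injective _ (Subgroup.inclusion_injective hle)

/-- case (iii) -/
theorem rank_inv {a : ℕ} (h : FinTwo (2 * a) 2 (2 * a)) : Finite (Bu 3 a) := by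
  classical
  let Q := C 2 × C 2
  let A : Q := (sg 2, 1)
  let B : Q := (1, sg 2)
  let P := Bu 3 a
  let f : Q → P := fun v => if v = A * B then bg 3 a 0 else 1
  let g : Q → P := fun v => if v = B then bg 3 a 1 else if v = A * B then bg 3 a 2 else 1
  let x : P ≀ᵣ Q := cj f A
  let y : P ≀ᵣ Q := ⟨g, B⟩
  have hQ : ∀ q : Q, q ^ 2 = 1 := by decide
  have hW : ∀ w : P ≀ᵣ Q, w ^ (2 * a) = 1 := exp_wreath (bu_exp _ a) hQ
  have hfin : Finite (closure ({x, y} : Set (P ≀ᵣ Q))) := by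
    refine h _ hW x y ?_ (hW y)
    rw [← map_pow, hQ, map_one]
  have hx : x ∈ (closure ({x, y} : Set (P ≀ᵣ Q))) := subset_closure (by simp)
  have hy : y ∈ (closure ({x, y} : Set (P ≀ᵣ Q))) := subset_closure (by simp)
  have a1 : A⁻¹ = A := by decide
  have b1 : B⁻¹ = B := by decide
  have f1 : f 1 = 1 := if_neg (by decide)
  have fA : f A = 1 := if_neg (by decide)
  have fB : f B = 1 := if_neg (by decide)
  have fAB : f (A * B) = bg 3 a 0 := if_pos rfl
  have g1 : g 1 = 1 := by simp only [g]; rw [if_neg (by decide), if_neg (by decide)]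
  have gA : g A = 1 := by simp only [g]; rw [if_neg (by decide), if_neg (by decide)]
  have gB : g B = bg 3 a 1 := if_pos rfl
  have gAB : g (A * B) = bg 3 a 2 := by
    change (if A * B = B then bg 3 a 1 else if A * B = A * B then bg 3 a 2 else 1) = _
    rw [if_neg (by decide), if_pos rfl]
  refine finite_of_core _ hfin ?_
  rw [eq_top_iff, ← bg_top, closure_le]
  have e1 : (y * y).right = 1 := by
    change B * B = 1
    decide
  have c1 : bg 3 a 1 ∈ core (closure ({x, y} : Set (P ≀ᵣ Q))) := by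
    refine ⟨y * y, mul_mem hy hy, e1, ?_⟩
    change g 1 * g (B⁻¹ * 1) = _
    rw [g1, mul_one, b1, gB, one_mul]
  have c2 : bg 3 a 2 ∈ core (closure ({x, y} : Set (P ≀ᵣ Q))) := by
    have hc := conj_left x (y * y) e1
    refine ⟨x * (y * y) * x⁻¹, mul_mem (mul_mem hx (mul_mem hy hy)) (inv_mem hx), hc.1, ?_⟩
    rw [hc.2]
    have e2 : x.left 1 = 1 := by
      change f 1 * (f (A⁻¹ * 1))⁻¹ = 1
      rw [f1, mul_one, a1, fA]; simp
    have e3 : (y * y).left x.right⁻¹ = bg 3 a 2 := by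
      change g (A⁻¹) * g (B⁻¹ * A⁻¹) = _
      rw [a1, b1, gA, mul_comm B A, gAB, one_mul]
    rw [e2, e3]; simp
  have c0 : bg 3 a 0 ∈ core (closure ({x, y} : Set (P ≀ᵣ Q))) := by
    have hm : y * x * y⁻¹ * x⁻¹ ∈ closure ({x, y} : Set (P ≀ᵣ Q)) :=
      mul_mem (mul_mem (mul_mem hy hx) (inv_mem hy)) (inv_mem hx)
    have h3 : (bg 3 a 0)⁻¹ ∈ core (closure ({x, y} : Set (P ≀ᵣ Q))) := by
      refine ⟨_, hm, ?_, ?_⟩
      · change B * A * B⁻¹ * A⁻¹ = 1
        decide
      · change g 1 * (f (B⁻¹ * 1) * (f (A⁻¹ * (B⁻¹ * 1)))⁻¹) * (g (B * ((B * A)⁻¹ * 1)))⁻¹ *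
          (f (A * ((B * A * B⁻¹)⁻¹ * 1)) * (f (A⁻¹ * (A * ((B * A * B⁻¹)⁻¹ * 1))))⁻¹)⁻¹ = _
        have k1 : B⁻¹ * 1 = B := by decide
        have k2 : A⁻¹ * B = A * B := by decide
        have k3 : B * ((B * A)⁻¹ * 1) = A := by decide
        have k4 : A * ((B * A * B⁻¹)⁻¹ * 1) = 1 := by decide
        have k5 : A⁻¹ * 1 = A := by decide
        rw [k1, k2, k3, k4, k5, g1, fB, fAB, gA, f1, fA]
        simp
    have h4 := inv_mem h3
    rwa [inv_inv] at h4
  rintro _ ⟨j, rfl⟩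
  fin_cases j
  · exact c0
  · exact c1
  · exact c2

/-- case (iv) -/
theorem rank_half {a : ℕ} (h : FinTwo (2 * a) a (2 * a)) : Finite (Bu 3 a) := by
  classical
  let Q := C 2
  let B : Q := sg 2
  let P := Bu 3 a
  let f : Q → P := fun v => if v = 1 then bg 3 a 0 else bg 3 a 1
  let g : Q → P := fun v => if v = B then bg 3 a 2 else 1
  let x : P ≀ᵣ Q := ba f
  let y : P ≀ᵣ Q := ⟨g, B⟩
  have hQ : ∀ q : Q, q ^ 2 = 1 := by decide
  have hW : ∀ w : P ≀ᵣ Q, w ^ (2 * a) = 1 := exp_wreath (bu_exp _ a) hQ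
  have hfin : Finite (closure ({x, y} : Set (P ≀ᵣ Q))) :=
    h _ hW x y (ba_pow (bu_exp _ a) f) (hW y)
  have hx : x ∈ (closure ({x, y} : Set (P ≀ᵣ Q))) := subset_closure (by simp)
  have hy : y ∈ (closure ({x, y} : Set (P ≀ᵣ Q))) := subset_closure (by simp)
  have b1 : B⁻¹ = B := by decide
  have f1 : f 1 = bg 3 a 0 := if_pos rfl
  have fB : f B = bg 3 a 1 := if_neg (by decide)
  have g1 : g 1 = 1 := if_neg (by decide)
  have gB : g B = bg 3 a 2 := if_pos rfl
  refine finite_of_core _ hfin ?_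
  rw [eq_top_iff, ← bg_top, closure_le]
  have c0 : bg 3 a 0 ∈ core (closure ({x, y} : Set (P ≀ᵣ Q))) := ⟨x, hx, rfl, f1⟩
  have c2 : bg 3 a 2 ∈ core (closure ({x, y} : Set (P ≀ᵣ Q))) := by
    refine ⟨y * y, mul_mem hy hy, ?_, ?_⟩
    · change B * B = 1
      decide
    · change g 1 * g (B⁻¹ * 1) = _
      rw [g1, mul_one, b1, gB, one_mul]
  have c1 : bg 3 a 1 ∈ core (closure ({x, y} : Set (P ≀ᵣ Q))) := by
    have hc := conj_left y x rfl
    refine ⟨y * x * y⁻¹, mul_mem (mul_mem hy hx) (inv_mem hy), hc.1, ?_⟩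
    rw [hc.2]
    change g 1 * f B⁻¹ * (g 1)⁻¹ = _
    rw [b1, g1, fB]; simp
  rintro _ ⟨j, rfl⟩
  fin_cases j
  · exact c0
  · exact c1
  · exact c2

/-- the case of `B_{2,a}` -/
theorem rank_self {a : ℕ} (h : FinTwo a a a) : Finite (Bu 2 a) := by
  have h1 := h (Bu 2 a) (bu_exp 2 a) (bg 2 a 0) (bg 2 a 1) (bu_exp 2 a _) (bu_exp 2 a _)
  have h2 : ({bg 2 a 0, bg 2 a 1} : Set (Bu 2 a)) = Set.range (bg 2 a) := by
    ext g
    simp only [Set.mem_range, Fin.exists_fin_succ, Set.mem_insert_iff, Set.mem_singleton_iff]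
    simp [eq_comm]
  rw [h2, bg_top] at h1
  exact Finite.of_equiv _ (Subgroup.topEquiv (G := Bu 2 a)).toEquiv

/-- Types of integers `r ≥ 2`. -/
theorem types {r : ℕ} (hr : 2 ≤ r) :
    (∃ d, 3 ≤ d ∧ Nat.Coprime d 5 ∧ d ∣ r) ∨ 10 ∣ r ∨ r = 2 ∨ r = 5 ∨ 25 ∣ r := by
  by_cases h1 : ∃ p, p.Prime ∧ p ∣ r ∧ p ≠ 2 ∧ p ≠ 5
  · obtain ⟨p, hp, hpr, h2, h5⟩ := h1
    left
    refine ⟨p, ?_, ?_, hpr⟩
    · have := hp.two_le; omega
    · exact (Nat.coprime_primes hp Nat.prime_five).2 h5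
  · push Not at h1
    by_cases h4 : 4 ∣ r
    · left
      exact ⟨4, by norm_num, by norm_num, h4⟩
    · right
      by_cases h10 : 10 ∣ r
      · left; exact h10
      · right
        by_cases h2 : 2 ∣ r
        · left
          have h5 : ¬ 5 ∣ r := by
            intro h5
            exact h10 (Nat.Coprime.mul_dvd_of_dvd_of_dvd (by norm_num : Nat.Coprime 2 5) h2 h5)
          have h7 : ∀ {d : ℕ}, d.Prime → d ∣ r → d = 2 := by
            intro d hd hdr
            by_contra hne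
            exact h5 (h1 d hd hdr hne ▸ hdr)
          have h6 := Nat.eq_prime_pow_of_unique_prime_dvd (n := r) (by omega) h7
          rcases hk : r.primeFactorsList.length with _ | _ | k
          · rw [hk] at h6; norm_num at h6; omega
          · rw [hk] at h6; norm_num at h6; omega
          · exfalso
            apply h4
            rw [h6, hk]
            exact ⟨2 ^ k, by ring⟩
        · right
          have h7 : ∀ {d : ℕ}, d.Prime → d ∣ r → d = 5 := by
            intro d hd hdr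
            by_contra hne
            by_cases hd2 : d = 2
            · exact h2 (hd2 ▸ hdr)
            · exact hne (h1 d hd hdr hd2)
          have h6 := Nat.eq_prime_pow_of_unique_prime_dvd (n := r) (by omega) h7
          rcases hk : r.primeFactorsList.length with _ | _ | k
          · rw [hk] at h6; norm_num at h6; omega
          · left; rw [hk] at h6; norm_num at h6; omega
          · right
            rw [h6, hk]
            exact ⟨5 ^ k, by ring⟩

/-- If two elements of order `r` and `s` generate a finite group, `B_{3,5}` is finite. -/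
theorem three_five {n r s : ℕ} (hn : 5 ∣ n) (hr : r ∣ n) (hs : s ∣ n) (hr1 : 1 < r) (hs1 : 1 < s)
    (h22 : ¬ (r = 2 ∧ s = 2)) (h : FinTwo n r s) :
    Finite (Bu 2 5) ∧ (¬ (¬ 25 ∣ n ∧ (r = 2 ∨ r = 5) ∧ (s = 2 ∨ s = 5)) → Finite (Bu 3 5)) := by
  have low : Finite (Bu 3 5) → Finite (Bu 2 5) := fun h => bu_le (by norm_num) h
  have both : Finite (Bu 3 5) → Finite (Bu 2 5) ∧
      (¬ (¬ 25 ∣ n ∧ (r = 2 ∨ r = 5) ∧ (s = 2 ∨ s = 5)) → Finite (Bu 3 5)) :=
    fun h => ⟨low h, fun _ => h⟩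
  have grid : ∀ d e : ℕ, 2 ≤ d → 2 ≤ e → 3 ≤ (d - 1) * (e - 1) → FinTwo (5 * Nat.lcm d e) d e →
      Finite (Bu 3 5) := by
    intro d e hd he h3 hf
    exact bu_le h3 (rank_grid (by omega) (by omega) hf)
  have div5 : ∀ d : ℕ, Nat.Coprime d 5 → d ∣ n → 5 * d ∣ n := fun d hd hdn =>
    Nat.Coprime.mul_dvd_of_dvd_of_dvd hd.symm hn hdn
  have lcm5 : ∀ d e : ℕ, Nat.Coprime d 5 → d ∣ n → Nat.Coprime e 5 → e ∣ n →
      5 * Nat.lcm d e ∣ n := by
    intro d e hd hdn he hen
    refine div5 _ ?_ (Nat.lcm_dvd hdn hen)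
    exact Nat.Coprime.coprime_dvd_left (Nat.lcm_dvd_mul d e) (Nat.Coprime.mul_left hd he)
  -- one type with an entry `d ≥ 3` prime to 5
  have alpha : ∀ r s d : ℕ, r ∣ n → s ∣ n → 1 < s → 3 ≤ d → Nat.Coprime d 5 → d ∣ r →
      FinTwo n r s → Finite (Bu 3 5) := by
    intro r s d hr hs hs1 h3 hc hd h
    have hdn := hd.trans hr
    rcases types hs1 with ⟨e, he3, hec, he⟩ | h10 | h2 | h5 | h25
    · refine grid d e (by omega) (by omega) ?_ (h.mono (lcm5 d e hc hdn hec (he.trans hs)) hd he)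
      have : 2 * 2 ≤ (d - 1) * (e - 1) := Nat.mul_le_mul (by omega) (by omega)
      omega
    · have h2s : 2 ∣ s := (by norm_num : (2 : ℕ) ∣ 10).trans h10
      rcases Nat.lt_or_ge d 4 with h4 | h4
      · have hd3 : d = 3 := by omega
        subst hd3
        have h30 : 2 * (5 * Nat.lcm 3 3) ∣ n := by
          have h6 : 5 * Nat.lcm 3 2 ∣ n := lcm5 3 2 (by norm_num) hdn (by norm_num) (h2s.trans hs)
          have e1 : 5 * Nat.lcm 3 2 = 2 * (5 * Nat.lcm 3 3) := by decide
          rwa [e1] at h6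
        exact grid 3 3 (by norm_num) (by norm_num) (by norm_num)
          (half (h.symm.mono h30 h2s hd))
      · exact grid d 2 (by omega) (by norm_num) (by omega)
          (h.mono (lcm5 d 2 hc hdn (by norm_num) (h2s.trans hs)) hd h2s)
    · subst h2
      rcases Nat.lt_or_ge d 4 with h4 | h4
      · have hd3 : d = 3 := by omega
        subst hd3
        have h30 : 2 * (5 * Nat.lcm 3 3) ∣ n := by
          have h6 : 5 * Nat.lcm 3 2 ∣ n := lcm5 3 2 (by norm_num) hdn (by norm_num) hs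
          have e1 : 5 * Nat.lcm 3 2 = 2 * (5 * Nat.lcm 3 3) := by decide
          rwa [e1] at h6
        exact grid 3 3 (by norm_num) (by norm_num) (by norm_num)
          (half (h.symm.mono h30 dvd_rfl hd))
      · exact grid d 2 (by omega) (by norm_num) (by omega)
          (h.mono (lcm5 d 2 hc hdn (by norm_num) hs) hd dvd_rfl)
    · subst h5
      exact bu_le h3 (rank_base (by omega) (h.symm.mono (div5 d hc hdn) dvd_rfl hd))
    · exact bu_le h3 (rank_base (by omega)
        (h.symm.mono (div5 d hc hdn) ((by norm_num : (5 : ℕ) ∣ 25).trans h25) hd))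
  -- an entry divisible by 10
  have beta : ∀ r s : ℕ, r ∣ n → s ∣ n → 1 < r → 1 < s → 10 ∣ r → FinTwo n r s →
      Finite (Bu 3 5) := by
    intro r s hr hs hr1 hs1 h10 h
    have h10n := h10.trans hr
    rcases types hs1 with ⟨e, he3, hec, he⟩ | h10' | h2 | h5 | h25
    · exact alpha s r e hs hr hr1 he3 hec he h.symm
    · have h2s : 2 ∣ s := (by norm_num : (2 : ℕ) ∣ 10).trans h10'
      exact rank_inv (a := 5) (h.symm.mono h10n h2s h10)
    · subst h2
      exact rank_inv (a := 5) (h.symm.mono h10n dvd_rfl h10)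
    · subst h5
      exact rank_half (a := 5) (h.symm.mono h10n dvd_rfl h10)
    · exact rank_half (a := 5) (h.symm.mono h10n ((by norm_num : (5 : ℕ) ∣ 25).trans h25) h10)
  -- only 2, 5 and multiples of 25
  have two : ∀ s : ℕ, s ∣ n → 2 ∣ n → (s = 5 ∨ 25 ∣ s) → FinTwo n 2 s → Finite (Bu 2 5) ∧
      ((¬ 25 ∣ n ∧ s = 5) ∨ Finite (Bu 3 5)) := by
    intro s hs h2n h5 h
    have h5s : 5 ∣ s := by
      rcases h5 with rfl | h5
      · exact dvd_rfl
      · exact (by norm_num : (5 : ℕ) ∣ 25).trans h5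
    have hcase : 25 ∣ n → Finite (Bu 3 5) := by
      intro h25
      have h50 : 5 * Nat.lcm 2 5 ∣ n := by
        have e1 : 5 * Nat.lcm 2 5 = 2 * 25 := by decide
        rw [e1]
        exact Nat.Coprime.mul_dvd_of_dvd_of_dvd (by norm_num : Nat.Coprime 2 25) h2n h25
      exact grid 2 5 (by norm_num) (by norm_num) (by norm_num) (h.mono h50 dvd_rfl h5s)
    by_cases h25 : 25 ∣ n
    · exact ⟨low (hcase h25), Or.inr (hcase h25)⟩
    · refine ⟨rank_base (a := 5) (s := 2) (by norm_num) (h.symm.mono ?_ h5s dvd_rfl), Or.inl ⟨h25, ?_⟩⟩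
      · exact Nat.Coprime.mul_dvd_of_dvd_of_dvd (by norm_num : Nat.Coprime 5 2) hn h2n
      · rcases h5 with rfl | h5
        · rfl
        · exact absurd (h5.trans hs) h25
  have five : ∀ r s : ℕ, r ∣ n → s ∣ n → (r = 5 ∨ 25 ∣ r) → (s = 5 ∨ 25 ∣ s) → FinTwo n r s →
      Finite (Bu 2 5) ∧ ((¬ 25 ∣ n ∧ r = 5 ∧ s = 5) ∨ Finite (Bu 3 5)) := by
    intro r s hr hs hr5 hs5 h
    have h5r : 5 ∣ r := by
      rcases hr5 with rfl | h5
      · exact dvd_rfl
      · exact (by norm_num : (5 : ℕ) ∣ 25).trans h5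
    have h5s : 5 ∣ s := by
      rcases hs5 with rfl | h5
      · exact dvd_rfl
      · exact (by norm_num : (5 : ℕ) ∣ 25).trans h5
    have hcase : 25 ∣ n → Finite (Bu 3 5) := by
      intro h25
      have h50 : 5 * Nat.lcm 5 5 ∣ n := by
        have e1 : 5 * Nat.lcm 5 5 = 25 := by decide
        rwa [e1]
      exact grid 5 5 (by norm_num) (by norm_num) (by norm_num) (h.mono h50 h5r h5s)
    by_cases h25 : 25 ∣ n
    · exact ⟨low (hcase h25), Or.inr (hcase h25)⟩
    · refine ⟨rank_self (h.mono hn h5r h5s), Or.inl ⟨h25, ?_, ?_⟩⟩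
      · rcases hr5 with rfl | h5
        · rfl
        · exact absurd (h5.trans hr) h25
      · rcases hs5 with rfl | h5
        · rfl
        · exact absurd (h5.trans hs) h25
  rcases types hr1 with ⟨d, h3, hc, hd⟩ | h10 | hr2 | hr5
  · exact both (alpha r s d hr hs hs1 h3 hc hd h)
  · exact both (beta r s hr hs hr1 hs1 h10 h)
  · rcases types hs1 with ⟨d, h3, hc, hd⟩ | h10 | hs2 | hs5
    · exact both (alpha s r d hs hr hr1 h3 hc hd h.symm)
    · exact both (beta s r hs hr hs1 hr1 h10 h.symm)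
    · exact absurd ⟨hr2, hs2⟩ h22
    · subst hr2
      obtain ⟨k1, k2⟩ := two s hs hr hs5 h
      refine ⟨k1, fun hne => ?_⟩
      rcases k2 with k2 | k2
      · exact absurd ⟨k2.1, Or.inl rfl, Or.inr k2.2⟩ hne
      · exact k2
  · rcases types hs1 with ⟨d, h3, hc, hd⟩ | h10 | hs2 | hs5
    · exact both (alpha s r d hs hr hr1 h3 hc hd h.symm)
    · exact both (beta s r hs hr hs1 hr1 h10 h.symm)
    · subst hs2
      obtain ⟨k1, k2⟩ := two r hr hs hr5 h.symm
      refine ⟨k1, fun hne => ?_⟩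
      rcases k2 with k2 | k2
      · exact absurd ⟨k2.1, Or.inr k2.2, Or.inl rfl⟩ hne
      · exact k2
    · obtain ⟨k1, k2⟩ := five r s hr hs hr5 hs5 h
      refine ⟨k1, fun hne => ?_⟩
      rcases k2 with k2 | k2
      · exact absurd ⟨k2.1, Or.inr k2.2.1, Or.inr k2.2.2⟩ hne
      · exact k2

end Pool.Agent.X267.Wr
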