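import Pool.Agent.X267.SandD
import Pool.Agent.Y50.FE.Word

set_option autoImplicit false

/-!
# A law which defines the locally finite groups of exponent five
-/

namespace Pool.Agent.X267.Sand

open Subgroup
open scoped commutatorElement
open Pool.Agent.H32BU Pool.Agent.Y50.FE

universe u v

/-- the conjugates of a left 3-Engel element form a sandwich set -/
theorem sw_of_engel {G : Type u} [Group G] {z : G} (hz : ∀ v : G, ⁅⁅⁅v, z⁆, z⁆, z⁆ = 1) :
    SW {x : G | ∃ g : G, x = g * z * g⁻¹} := by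
  have key : ∀ v : G, Commute z ((v * z * v⁻¹) * z * (v * z * v⁻¹)⁻¹) := by
    intro v
    have h1 : ⁅⁅v, z⁆, z⁆ = ⁅v * z * v⁻¹, z⁆ := by
      simp only [commutatorElement_def]; group
    have h2 := hz v
    rw [h1] at h2
    have h3 : Commute ⁅v * z * v⁻¹, z⁆ z := of_comm_one h2
    have h4 : (v * z * v⁻¹) * z * (v * z * v⁻¹)⁻¹ = ⁅v * z * v⁻¹, z⁆ * z := by
      simp only [commutatorElement_def]; group
    rw [h4]
    exact (h3.symm).mul_right (Commute.refl z)
  constructor
  · rintro x ⟨g, rfl⟩ k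
    exact ⟨k * g, by group⟩
  · rintro x ⟨g, rfl⟩ y ⟨k, rfl⟩
    have h1 := (key (g⁻¹ * k)).conj g
    have h2 : g * ((g⁻¹ * k) * z * (g⁻¹ * k)⁻¹ * z * ((g⁻¹ * k) * z * (g⁻¹ * k)⁻¹)⁻¹) * g⁻¹ =
        k * z * k⁻¹ * (g * z * g⁻¹) * (k * z * k⁻¹)⁻¹ := by group
    rw [h2] at h1
    exact h1

/-- in exponent five, left 3-Engel elements lie in the locally finite radical -/
theorem star {G : Type} [Group G] (h5 : ∀ g : G, g ^ 5 = 1) {z : G}
    (hz : ∀ v : G, ⁅⁅⁅v, z⁆, z⁆, z⁆ = 1) : LFs (normalClosure ({z} : Set G)) := by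
  have hX := sw_of_engel hz
  have hcl : closure {x : G | ∃ g : G, x = g * z * g⁻¹} = normalClosure ({z} : Set G) := by
    apply le_antisymm
    · rw [closure_le]
      rintro x ⟨g, rfl⟩
      exact normalClosure_normal.conj_mem z (subset_normalClosure (Set.mem_singleton z)) g
    · refine (closure_mono ?_ : closure (Group.conjugatesOfSet ({z} : Set G)) ≤ _)
      intro x hx
      simp only [Group.mem_conjugatesOfSet_iff, Set.mem_singleton_iff, exists_eq_left,
        isConj_iff] at hx
      obtain ⟨g, rfl⟩ := hx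
      exact ⟨g, rfl⟩
  have e5 : ∀ g : normalClosure ({z} : Set G), g ^ 5 = 1 := fun g => Subtype.ext (h5 _)
  have hmem : ∀ (x : normalClosure ({z} : Set G)), (∃ g : G, (x : G) = g * z * g⁻¹) →
      x ∈ Rd (normalClosure ({z} : Set G)) := by
    rintro x hx
    rw [mem_Rd]
    refine lemP e5 x fun h => ?_
    have hh : (h : G) ∈ closure {x : G | ∃ g : G, x = g * z * g⁻¹} := by rw [hcl]; exact h.2
    have h1 := sandwich h5 hX (x := (x : G)) (h := (h : G)) hx hh
    have h2 : Commute ⁅h, x⁆ x := by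
      have h3 : Commute (⁅(h : G), (x : G)⁆) (x : G) := by
        rw [commutatorElement_def]
        exact (h1.mul_right (Commute.refl (x : G)).inv_right).symm
      exact Subtype.ext h3.eq
    exact comm_one h2
  have hR : Rd (normalClosure ({z} : Set G)) = ⊤ := by
    have h1 : closure {x : G | ∃ g : G, x = g * z * g⁻¹} ≤
        (Rd (normalClosure ({z} : Set G))).map (normalClosure ({z} : Set G)).subtype := by
      rw [closure_le]
      rintro x ⟨g, rfl⟩
      have hm : g * z * g⁻¹ ∈ normalClosure ({z} : Set G) :=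
        normalClosure_normal.conj_mem z (subset_normalClosure (Set.mem_singleton z)) g
      exact ⟨⟨_, hm⟩, hmem ⟨_, hm⟩ ⟨g, rfl⟩, rfl⟩
    rw [hcl] at h1
    rw [eq_top_iff]
    rintro ⟨y, hy⟩ -
    obtain ⟨y', hy', he⟩ := h1 hy
    have : y' = ⟨y, hy⟩ := Subtype.ext he
    rwa [← this]
  refine (lfs_iff _).2 ?_
  intro S
  refine LFs_Rd S ?_
  rw [hR]
  exact Set.subset_univ _

/-- `[y, x, x, x]` -/
def e3 {G : Type u} [Group G] (x y : G) : G := ⁅⁅⁅y, x⁆, x⁆, x⁆

theorem map_e3 {G : Type u} {H : Type v} [Group G] [Group H] (f : G →* H) (x y : G) :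
    f (e3 x y) = e3 (f x) (f y) := by
  simp only [e3, map_commutatorElement]

/-- Local finiteness from the law. -/
theorem main_law {G : Type} [Group G] (h5 : ∀ g : G, g ^ 5 = 1)
    (hA : ∀ x y g : G, e3 (e3 x y) g = 1) : LF G := by
  have q5 : ∀ g : G ⧸ Rd G, g ^ 5 = 1 := by
    intro g
    obtain ⟨g, rfl⟩ := QuotientGroup.mk_surjective g
    rw [← QuotientGroup.mk_pow, h5]
    rfl
  have C : ∀ z : G ⧸ Rd G, (∀ v : G ⧸ Rd G, ⁅⁅⁅v, z⁆, z⁆, z⁆ = 1) → z = 1 :=
    fun z hz => Rd_quot z (star q5 hz)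
  have T : ∀ x : G ⧸ Rd G, x = 1 := by
    intro x
    refine C x fun y => ?_
    refine C _ fun g => ?_
    obtain ⟨x, rfl⟩ := QuotientGroup.mk'_surjective _ x
    obtain ⟨y, rfl⟩ := QuotientGroup.mk'_surjective _ y
    obtain ⟨g, rfl⟩ := QuotientGroup.mk'_surjective _ g
    change e3 (e3 (QuotientGroup.mk' (Rd G) x) (QuotientGroup.mk' (Rd G) y))
      (QuotientGroup.mk' (Rd G) g) = 1
    rw [← map_e3, ← map_e3, hA, map_one]
  have hR : Rd G = ⊤ := by
    rw [eq_top_iff]
    rintro g -
    exact (QuotientGroup.eq_one_iff g).1 (T g)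
  intro S
  refine LFs_Rd S ?_
  rw [hR]
  exact Set.subset_univ _

/-- The law in groups with finite 3-generator subgroups, in any universe. -/
theorem law_of_three {G : Type u} [Group G] (h5 : ∀ g : G, g ^ 5 = 1)
    (h3 : ∀ a b c : G, Finite (closure ({a, b, c} : Set G))) (x y g : G) :
    e3 (e3 x y) g = 1 := by
  have hf := h3 x y g
  have m0 : x ∈ closure ({x, y, g} : Set G) := subset_closure (by simp)
  have m1 : y ∈ closure ({x, y, g} : Set G) := subset_closure (by simp)
  have m2 : g ∈ closure ({x, y, g} : Set G) := subset_closure (by simp)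
  let s : ℕ → closure ({x, y, g} : Set G) :=
    fun e => if e = 0 then ⟨x, m0⟩ else if e = 1 then ⟨y, m1⟩ else ⟨g, m2⟩
  have hs : closure ({s 0, s 1, s 2} : Set (closure ({x, y, g} : Set G))) = ⊤ := by
    rw [← closure_closure_coe_preimage]
    congr 1
    ext x
    obtain ⟨x, hx⟩ := x
    simp [s, Subtype.ext_iff]
  have h1 := lemB (fun g => Subtype.ext (h5 _)) s hs
  exact congrArg Subtype.val h1

/-- The locally finite groups of exponent five are defined by one law. -/
theorem law_iff (G : Type u) [Group G] (h5 : ∀ x : G, x ^ 5 = 1) :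
    (∀ S : Set G, S.Finite → Finite (closure S)) ↔ ∀ x y g : G, e3 (e3 x y) g = 1 := by
  constructor
  · intro h
    exact law_of_three h5 fun a b c => h _ (by simp)
  · intro hA S hS
    refine Pool.Agent.W629.finite_closure_u S hS fun Q _ f hf => ?_
    refine main_law (fun x => hf (by rw [map_pow, map_one]; exact h5 _)) fun x y g => hf ?_
    rw [map_e3, map_e3, map_one]
    exact hA _ _ _

/-- `5 ∈ 𝓛` if and only if one element of `B(3,5)` is trivial. -/
theorem inL_law : InL.{u} 5 ↔ e3 (e3 (bg 5 0) (bg 5 1)) (bg 5 2) = 1 := by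
  constructor
  · intro h
    have hf : Finite (Bu 3 5) := inL_five.1 h
    exact law_of_three (x_LFD.2.2.2 3 5) (fun _ _ _ => inferInstance) _ _ _
  · intro hw G _ h5 S hS
    refine (law_iff G h5).2 (fun x y g => ?_) S hS
    obtain ⟨F, rfl, rfl, rfl⟩ := bu_lift h5 x y g
    rw [← map_e3, ← map_e3, hw, map_one]

end Pool.Agent.X267.Sand
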