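import Pool.Agent.X267.OrdB

set_option autoImplicit false

/-!
# Groups of exponent `a` as sections of groups generated by three elements of small order
-/

namespace Pool.Agent.X267.Wr

open Subgroup

universe u v

/-- In all groups of exponent `n` three elements `x`, `y`, `z` with `x ^ r = y ^ s = z ^ t = 1`
generate a finite subgroup. -/
def FinThree (n r s t : ℕ) : Prop :=
  ∀ (W : Type) [Group W], (∀ w : W, w ^ n = 1) → ∀ x y z : W, x ^ r = 1 → y ^ s = 1 → z ^ t = 1 →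
    Finite (closure ({x, y, z} : Set W))

theorem FinThree.two {n r s t : ℕ} (h : FinThree n r s t) : FinTwo n r s := by
  intro W _ hW x y hx hy
  have h1 := h W hW x y 1 hx hy (one_pow t)
  have h2 : closure ({x, y, 1} : Set W) = closure {x, y} := by
    apply le_antisymm
    · rw [closure_le]
      rintro w (rfl | rfl | rfl)
      · exact subset_closure (by simp)
      · exact subset_closure (by simp)
      · exact one_mem _
    · exact closure_mono (by
        rintro w (rfl | rfl)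
        · simp
        · simp)
  rwa [h2] at h1

theorem rank_three_inv {a : ℕ} (h : FinThree (2 * a) 2 2 2) : Finite (Bu 3 a) := by
  classical
  let Q := C 2 × C 2
  let A : Q := (sg 2, 1)
  let B : Q := (1, sg 2)
  let P := Bu 3 a
  let h1 : Q → P := fun v => if v = B then bg 3 a 0 else 1
  let h2 : Q → P := fun v => if v = A then bg 3 a 1 else 1
  let h3 : Q → P := fun v => if v = A then bg 3 a 2 else 1
  let x : P ≀ᵣ Q := cj h1 A
  let y : P ≀ᵣ Q := cj h2 B
  let z : P ≀ᵣ Q := cj h3 (A * B)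
  have hQ : ∀ q : Q, q ^ 2 = 1 := by decide
  have hW : ∀ w : P ≀ᵣ Q, w ^ (2 * a) = 1 := exp_wreath (bu_exp _ a) hQ
  have hfin : Finite (closure ({x, y, z} : Set (P ≀ᵣ Q))) := by
    refine h _ hW x y z ?_ ?_ ?_ <;> rw [← map_pow, hQ, map_one]
  have hx : x ∈ (closure ({x, y, z} : Set (P ≀ᵣ Q))) := subset_closure (by simp)
  have hy : y ∈ (closure ({x, y, z} : Set (P ≀ᵣ Q))) := subset_closure (by simp)
  have hz : z ∈ (closure ({x, y, z} : Set (P ≀ᵣ Q))) := subset_closure (by simp)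
  have x1 : x.left 1 = 1 := by
    change h1 1 * (h1 (A⁻¹ * 1))⁻¹ = 1
    rw [show h1 1 = 1 from if_neg (by decide), show h1 (A⁻¹ * 1) = 1 from if_neg (by decide)]; simp
  have y1 : y.left 1 = 1 := by
    change h2 1 * (h2 (B⁻¹ * 1))⁻¹ = 1
    rw [show h2 1 = 1 from if_neg (by decide), show h2 (B⁻¹ * 1) = 1 from if_neg (by decide)]; simp
  have yB : y.left B = 1 := by
    change h2 B * (h2 (B⁻¹ * B))⁻¹ = 1
    rw [show h2 B = 1 from if_neg (by decide), show h2 (B⁻¹ * B) = 1 from if_neg (by decide)]; simp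
  have yA : y.left A = bg 3 a 1 := by
    change h2 A * (h2 (B⁻¹ * A))⁻¹ = _
    rw [show h2 A = bg 3 a 1 from if_pos rfl, show h2 (B⁻¹ * A) = 1 from if_neg (by decide)]; simp
  have xB : x.left B = bg 3 a 0 := by
    change h1 B * (h1 (A⁻¹ * B))⁻¹ = _
    rw [show h1 B = bg 3 a 0 from if_pos rfl, show h1 (A⁻¹ * B) = 1 from if_neg (by decide)]; simp
  have zAB : z.left (A * B) = 1 := by
    change h3 (A * B) * (h3 ((A * B)⁻¹ * (A * B)))⁻¹ = _
    rw [show h3 (A * B) = 1 from if_neg (by decide),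
      show h3 ((A * B)⁻¹ * (A * B)) = 1 from if_neg (by decide)]; simp
  have zA : z.left A = bg 3 a 2 := by
    change h3 A * (h3 ((A * B)⁻¹ * A))⁻¹ = _
    rw [show h3 A = bg 3 a 2 from if_pos rfl,
      show h3 ((A * B)⁻¹ * A) = 1 from if_neg (by decide)]; simp
  have a1 : A⁻¹ * 1 = A := by decide
  have b1 : B⁻¹ * 1 = B := by decide
  refine finite_of_core _ hfin ?_
  rw [eq_top_iff, ← bg_top, closure_le]
  have c0 : bg 3 a 0 ∈ core (closure ({x, y, z} : Set (P ≀ᵣ Q))) := by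
    refine ⟨y * x * z, mul_mem (mul_mem hy hx) hz, ?_, ?_⟩
    · change B * A * (A * B) = 1
      decide
    · change y.left 1 * x.left (B⁻¹ * 1) * z.left ((B * A)⁻¹ * 1) = _
      rw [show (B * A)⁻¹ * 1 = A * B by decide, b1, y1, xB, zAB]; simp
  have c1 : bg 3 a 1 ∈ core (closure ({x, y, z} : Set (P ≀ᵣ Q))) := by
    refine ⟨x * y * z, mul_mem (mul_mem hx hy) hz, ?_, ?_⟩
    · change A * B * (A * B) = 1
      decide
    · change x.left 1 * y.left (A⁻¹ * 1) * z.left ((A * B)⁻¹ * 1) = _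
      rw [show (A * B)⁻¹ * 1 = A * B by decide, a1, x1, yA, zAB]; simp
  have c2 : bg 3 a 2 ∈ core (closure ({x, y, z} : Set (P ≀ᵣ Q))) := by
    refine ⟨x * z * y, mul_mem (mul_mem hx hz) hy, ?_, ?_⟩
    · change A * (A * B) * B = 1
      decide
    · change x.left 1 * z.left (A⁻¹ * 1) * y.left ((A * (A * B))⁻¹ * 1) = _
      rw [show (A * (A * B))⁻¹ * 1 = B by decide, a1, x1, zA, yB]; simp
  rintro _ ⟨j, rfl⟩
  fin_cases j
  · exact c0
  · exact c1
  · exact c2

theorem rank_three_half {a : ℕ} (h : FinThree (2 * a) a 2 a) : Finite (Bu 3 a) := by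
  classical
  let Q := C 2
  let B : Q := sg 2
  let P := Bu 3 a
  let f : Q → P := fun v => if v = 1 then bg 3 a 0 else bg 3 a 1
  let g : Q → P := fun v => if v = 1 then bg 3 a 2 else 1
  let x : P ≀ᵣ Q := ba f
  let z : P ≀ᵣ Q := ba g
  let y : P ≀ᵣ Q := cj 1 B
  have hQ : ∀ q : Q, q ^ 2 = 1 := by decide
  have hW : ∀ w : P ≀ᵣ Q, w ^ (2 * a) = 1 := exp_wreath (bu_exp _ a) hQ
  have hfin : Finite (closure ({x, y, z} : Set (P ≀ᵣ Q))) :=
    h _ hW x y z (ba_pow (bu_exp _ a) f) (by rw [← map_pow, hQ, map_one]) (ba_pow (bu_exp _ a) g)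
  have hx : x ∈ (closure ({x, y, z} : Set (P ≀ᵣ Q))) := subset_closure (by simp)
  have hy : y ∈ (closure ({x, y, z} : Set (P ≀ᵣ Q))) := subset_closure (by simp)
  have hz : z ∈ (closure ({x, y, z} : Set (P ≀ᵣ Q))) := subset_closure (by simp)
  have b1 : B⁻¹ = B := by decide
  have f1 : f 1 = bg 3 a 0 := if_pos rfl
  have fB : f B = bg 3 a 1 := if_neg (by decide)
  have g1 : g 1 = bg 3 a 2 := if_pos rfl
  refine finite_of_core _ hfin ?_
  rw [eq_top_iff, ← bg_top, closure_le]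
  have c0 : bg 3 a 0 ∈ core (closure ({x, y, z} : Set (P ≀ᵣ Q))) := ⟨x, hx, rfl, f1⟩
  have c2 : bg 3 a 2 ∈ core (closure ({x, y, z} : Set (P ≀ᵣ Q))) := ⟨z, hz, rfl, g1⟩
  have c1 : bg 3 a 1 ∈ core (closure ({x, y, z} : Set (P ≀ᵣ Q))) := by
    have hc := conj_left y x rfl
    refine ⟨y * x * y⁻¹, mul_mem (mul_mem hy hx) (inv_mem hy), hc.1, ?_⟩
    rw [hc.2, show y.left 1 = 1 from io_left _ _]
    change 1 * f B⁻¹ * 1⁻¹ = _
    rw [b1, fB]; simp
  rintro _ ⟨j, rfl⟩
  fin_cases j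
  · exact c0
  · exact c1
  · exact c2

end Pool.Agent.X267.Wr
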