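import Pool.Agent.X267.Tree

set_option autoImplicit false

/-!
# Free Burnside groups and subgroups of finite index of their free preimages
-/

namespace Pool.Agent.X267.Wr

open Subgroup

universe u v

/-- The free Burnside group `B_{m,n}`: the free group of rank `m` modulo the normal closure of all
`n`-th powers. -/
abbrev Bu (m n : ℕ) : Type :=
  FreeGroup (Fin m) ⧸ Subgroup.normalClosure (Set.range fun w : FreeGroup (Fin m) => w ^ n)

theorem bu_exp (m n : ℕ) (x : Bu m n) : x ^ n = 1 := by
  obtain ⟨w, rfl⟩ := QuotientGroup.mk_surjective x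
  rw [← QuotientGroup.mk_pow, QuotientGroup.eq_one_iff]
  exact Subgroup.subset_normalClosure ⟨w, rfl⟩

/-- the generators -/
def bg (m n : ℕ) (i : Fin m) : Bu m n := QuotientGroup.mk (FreeGroup.of i)

theorem bg_top (m n : ℕ) : closure (Set.range (bg m n)) = ⊤ := by
  rw [eq_top_iff]
  rintro x -
  obtain ⟨w, rfl⟩ := QuotientGroup.mk_surjective x
  induction w using FreeGroup.induction_on with
  | C1 => exact one_mem _
  | of i => exact Subgroup.subset_closure ⟨i, rfl⟩
  | inv_of i hi => exact inv_mem hi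
  | mul a b ha hb => exact mul_mem ha hb

/-- the universal property -/
theorem bu_onto {m n : ℕ} {G : Type u} [Group G] (hG : ∀ x : G, x ^ n = 1) (v : Fin m → G) :
    ∃ f : Bu m n →* G, (∀ i, f (bg m n i) = v i) ∧ f.range = closure (Set.range v) := by
  let f0 : FreeGroup (Fin m) →* G := FreeGroup.lift v
  have hker : Subgroup.normalClosure (Set.range fun w : FreeGroup (Fin m) => w ^ n) ≤ f0.ker := by
    apply Subgroup.normalClosure_le_normal
    rintro _ ⟨w, rfl⟩
    rw [SetLike.mem_coe, MonoidHom.mem_ker, map_pow, hG]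
  refine ⟨QuotientGroup.lift _ f0 (fun w hw => hker hw), ?_, ?_⟩
  · intro i
    change f0 (FreeGroup.of i) = v i
    exact FreeGroup.lift_apply_of
  · have e1 : (QuotientGroup.lift _ f0 (fun w hw => hker hw) : Bu m n →* G).range = f0.range := by
      ext g
      constructor
      · rintro ⟨w, rfl⟩
        obtain ⟨w, rfl⟩ := QuotientGroup.mk_surjective w
        exact ⟨w, rfl⟩
      · rintro ⟨w, rfl⟩
        exact ⟨(w : Bu m n), rfl⟩
    rw [e1]
    exact FreeGroup.range_lift_eq_closure

theorem finite_closure {m n : ℕ} (hf : Finite (Bu m n)) {G : Type u} [Group G]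
    (hG : ∀ x : G, x ^ n = 1) (v : Fin m → G) : Finite (closure (Set.range v)) := by
  obtain ⟨f, -, hr⟩ := bu_onto hG v
  rw [← hr]
  exact Finite.of_surjective _ f.rangeRestrict_surjective

theorem finite_of_gen {m n : ℕ} (hf : Finite (Bu m n)) {G : Type u} [Group G]
    (hG : ∀ x : G, x ^ n = 1) (v : Fin m → G) (hv : closure (Set.range v) = ⊤) : Finite G := by
  have h := finite_closure hf hG v
  rw [hv] at h
  exact Finite.of_equiv _ (Subgroup.topEquiv (G := G)).toEquiv

/-- divisors of the exponent -/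
theorem bu_dvd {m a b : ℕ} (h : a ∣ b) (hf : Finite (Bu m b)) : Finite (Bu m a) := by
  obtain ⟨c, rfl⟩ := h
  exact finite_of_gen hf (fun x => by rw [pow_mul, bu_exp, one_pow]) (bg m a) (bg_top m a)

/-- fewer generators -/
theorem bu_le {m k a : ℕ} (h : k ≤ m) (hf : Finite (Bu m a)) : Finite (Bu k a) := by
  refine finite_of_gen hf (bu_exp k a) (fun i => if h : i.1 < k then bg k a ⟨i.1, h⟩ else 1) ?_
  rw [eq_top_iff, ← bg_top k a, closure_le]
  rintro _ ⟨j, rfl⟩
  refine subset_closure ⟨⟨j.1, by omega⟩, ?_⟩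
  simp

/-- Let `m ≥ 1`. If `B_{m,ab}` is finite, so is the free Burnside group of exponent `a` whose rank
is that of the kernel of the map from the free group of rank `m` onto `B_{m,b}`. -/
theorem bu_kernel {m a b : ℕ} (hm : 1 ≤ m) (hf : Finite (Bu m (a * b))) :
    Finite (Bu m b) ∧ Finite (Bu ((m - 1) * Nat.card (Bu m b) + 1) a) := by
  have h1 : Finite (Bu m b) := bu_dvd (dvd_mul_left b a) hf
  refine ⟨h1, ?_⟩
  obtain ⟨w, hw⟩ := exists_gens (P := Bu ((m - 1) * Nat.card (Bu m b) + 1) a) (bg m b) hm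
    (bg_top m b) (bg _ a) (bg_top _ a)
  refine finite_of_core _ ?_ hw
  refine finite_closure hf ?_ w
  intro x
  rw [mul_comm a b]
  exact exp_wreath (bu_exp _ a) (bu_exp m b) x

/-- a lower bound for the order of `B_{m,b}` -/
theorem le_card {m b : ℕ} (hm : 1 ≤ m) (hb : 1 ≤ b) (hf : Finite (Bu m b)) :
    b ≤ Nat.card (Bu m b) := by
  have : NeZero b := ⟨by omega⟩
  obtain ⟨f, hf1, -⟩ := bu_onto (G := C b) (c_pow b) (fun _ : Fin m => sg b)
  have hs : Function.Surjective f := by
    intro x
    refine ⟨bg m b ⟨0, hm⟩ ^ (Multiplicative.toAdd x).val, ?_⟩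
    rw [map_pow, hf1, sg_pow]
    simp
  have h := Nat.card_le_card_of_surjective f hs
  rwa [Nat.card_eq_fintype_card (α := C b), Fintype.card_multiplicative, ZMod.card] at h

end Pool.Agent.X267.Wr
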