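import Pool.Agent.X267.Bur

set_option autoImplicit false

/-!
# Groups of exponent `a` as sections of groups generated by two elements of small order
-/

namespace Pool.Agent.X267.Wr

open Subgroup

universe u v

/-- In all groups of exponent `n` two elements `x`, `y` with `x ^ r = y ^ s = 1` generate a finite
subgroup. -/
def FinTwo (n r s : ℕ) : Prop :=
  ∀ (W : Type) [Group W], (∀ w : W, w ^ n = 1) → ∀ x y : W, x ^ r = 1 → y ^ s = 1 →
    Finite (closure ({x, y} : Set W))

theorem FinTwo.symm {n r s : ℕ} (h : FinTwo n r s) : FinTwo n s r := by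
  intro W _ hW x y hx hy
  rw [Set.pair_comm]
  exact h W hW y x hy hx

theorem FinTwo.mono {n r s n' r' s' : ℕ} (h : FinTwo n r s) (hn : n' ∣ n) (hr : r' ∣ r)
    (hs : s' ∣ s) : FinTwo n' r' s' := by
  obtain ⟨c, rfl⟩ := hn
  obtain ⟨d, rfl⟩ := hr
  obtain ⟨e, rfl⟩ := hs
  intro W _ hW x y hx hy
  exact h W (fun w => by rw [pow_mul, hW, one_pow]) x y (by rw [pow_mul, hx, one_pow])
    (by rw [pow_mul, hy, one_pow])

section
variable {P : Type u} {Q : Type v} [Group P] [Group Q]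

/-- the conjugate of a top element by a base element -/
def cj (h : Q → P) : Q →* P ≀ᵣ Q where
  toFun q := ⟨fun v => h v * (h (q⁻¹ * v))⁻¹, q⟩
  map_one' := by
    refine RegularWreathProduct.ext ?_ rfl
    funext v
    simp
  map_mul' q q' := by
    refine RegularWreathProduct.ext ?_ rfl
    funext v
    rw [RegularWreathProduct.mul_left]
    simp [mul_assoc]

theorem cj_left (h : Q → P) (q v : Q) : (cj h q).left v = h v * (h (q⁻¹ * v))⁻¹ := rfl

theorem cj_right (h : Q → P) (q : Q) : (cj h q).right = q := rfl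

theorem io_left (q v : Q) : (cj (1 : Q → P) q).left v = 1 := by
  simp [cj_left]

/-- a base element -/
def ba (h : Q → P) : P ≀ᵣ Q := ⟨h, 1⟩

theorem ba_pow {a : ℕ} (hP : ∀ p : P, p ^ a = 1) (h : Q → P) : ba h ^ a = 1 := by
  have h1 : ∀ n : ℕ, ba h ^ n = ba (h ^ n) := by
    intro n
    induction n with
    | zero =>
      rw [pow_zero, pow_zero]
      rfl
    | succ n ih =>
      rw [pow_succ, ih]
      refine RegularWreathProduct.ext ?_ (by simp [ba])
      funext v
      simp [ba, pow_succ]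
  rw [h1]
  refine RegularWreathProduct.ext ?_ rfl
  funext v
  simp [ba, hP]

end

section
variable {P : Type u} {Q : Type v} [Group P] [CommGroup Q]

/-- commutators of `cj h u` and top elements -/
theorem comm_mem_core (H : Subgroup (P ≀ᵣ Q)) (h : Q → P) (u w : Q) (h1 : h 1 = 1)
    (hu : h u⁻¹ = 1) (hw : h w⁻¹ = 1) (hx : cj h u ∈ H) (hy : cj (1 : Q → P) w ∈ H) :
    h (u * w)⁻¹ ∈ core H := by
  have hm : cj (1 : Q → P) w * cj h u * (cj (1 : Q → P) w)⁻¹ * (cj h u)⁻¹ ∈ H :=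
    mul_mem (mul_mem (mul_mem hy hx) (inv_mem hy)) (inv_mem hx)
  have h2 : (h (u * w)⁻¹)⁻¹ ∈ core H := by
    refine ⟨_, hm, ?_, ?_⟩
    · simp only [RegularWreathProduct.mul_right, RegularWreathProduct.inv_right, cj_right]
      rw [mul_comm w u, mul_inv_cancel_right, mul_inv_cancel]
    · rw [← map_inv, ← map_inv]
      simp only [RegularWreathProduct.mul_left, Pi.mul_apply, RegularWreathProduct.mul_right, cj_right,
        cj_left, mul_one]
      have e1 : (w * u)⁻¹ = u⁻¹ * w⁻¹ := by rw [mul_inv_rev]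
      have e2 : (w * u * w⁻¹)⁻¹ = u⁻¹ := by rw [mul_comm w u, mul_inv_cancel_right]
      have e3 : (u⁻¹)⁻¹ * u⁻¹ = 1 := inv_mul_cancel _
      have e4 : (u * w)⁻¹ = u⁻¹ * w⁻¹ := by rw [mul_inv_rev, mul_comm]
      rw [e2, e3, e4, hw, hu, h1]
      simp
  have h3 := inv_mem h2
  rwa [inv_inv] at h3

end

theorem mem_zpow_sg {k : ℕ} [NeZero k] (u : C k) : ∃ i : ℕ, u = sg k ^ i := by
  refine ⟨(Multiplicative.toAdd u).val, ?_⟩
  rw [sg_pow]
  simp

theorem card_C (k : ℕ) [NeZero k] : Fintype.card (C k) = k := by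
  rw [Fintype.card_multiplicative, ZMod.card]

/-- case (i) -/
theorem rank_grid {a r s : ℕ} (hr : 1 ≤ r) (hs : 1 ≤ s) (h : FinTwo (a * Nat.lcm r s) r s) :
    Finite (Bu ((r - 1) * (s - 1)) a) := by
  classical
  have : NeZero r := ⟨by omega⟩
  have : NeZero s := ⟨by omega⟩
  let F : Finset (C r × C s) := (Finset.univ.erase 1) ×ˢ (Finset.univ.erase 1)
  have hF : F.card = (r - 1) * (s - 1) := by
    rw [Finset.card_product, Finset.card_erase_of_mem (Finset.mem_univ _),
      Finset.card_erase_of_mem (Finset.mem_univ _), Finset.card_univ, Finset.card_univ, card_C, card_C]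
  let e := F.equivFinOfCardEq hF
  let P := Bu ((r - 1) * (s - 1)) a
  let g : Fin ((r - 1) * (s - 1)) → C r × C s := fun j => (e.symm j).1
  have hg : Function.Injective g := fun i j hij => e.symm.injective (Subtype.ext hij)
  let f : C r × C s → P := Function.extend g (bg _ a) (fun _ => 1)
  have hf1 : ∀ v : C r × C s, v.1 = 1 ∨ v.2 = 1 → f v = 1 := by
    intro v hv
    apply Function.extend_apply'
    rintro ⟨j, hj⟩
    have h2 := (e.symm j).2
    rw [Finset.mem_product, Finset.mem_erase, Finset.mem_erase] at h2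
    have h3 : (e.symm j).1 = v := hj
    rw [h3] at h2
    rcases hv with hv | hv
    · exact h2.1.1 hv
    · exact h2.2.1 hv
  let x : P ≀ᵣ (C r × C s) := cj f (sg r, 1)
  let y : P ≀ᵣ (C r × C s) := cj 1 (1, sg s)
  have hQ : ∀ q : C r × C s, q ^ (Nat.lcm r s) = 1 := by
    rintro ⟨u, v⟩
    obtain ⟨c, hc⟩ := Nat.dvd_lcm_left r s
    obtain ⟨d, hd⟩ := Nat.dvd_lcm_right r s
    refine Prod.ext ?_ ?_
    · rw [Prod.pow_fst, hc, pow_mul, c_pow, one_pow]; rfl
    · rw [Prod.pow_snd, hd, pow_mul, c_pow, one_pow]; rfl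
  have hW : ∀ w : P ≀ᵣ (C r × C s), w ^ (a * Nat.lcm r s) = 1 := by
    intro w
    rw [mul_comm a]
    exact exp_wreath (bu_exp _ a) hQ w
  have hfin : Finite (closure ({x, y} : Set (P ≀ᵣ (C r × C s)))) := by
    refine h _ hW x y ?_ ?_
    · rw [← map_pow]
      convert map_one (cj f)
      refine Prod.ext ?_ ?_
      · rw [Prod.pow_fst, c_pow]; rfl
      · rw [Prod.pow_snd, one_pow]; rfl
    · rw [← map_pow]
      convert map_one (cj (1 : C r × C s → P))
      refine Prod.ext ?_ ?_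
      · rw [Prod.pow_fst, one_pow]; rfl
      · rw [Prod.pow_snd, c_pow]; rfl
  refine finite_of_core _ hfin ?_
  rw [eq_top_iff, ← bg_top, closure_le]
  rintro _ ⟨j, rfl⟩
  have hj : f (g j) = bg _ a j := hg.extend_apply _ _ _
  have hx : x ∈ (closure ({x, y} : Set (P ≀ᵣ (C r × C s)))) := subset_closure (by simp)
  have hy : y ∈ (closure ({x, y} : Set (P ≀ᵣ (C r × C s)))) := subset_closure (by simp)
  obtain ⟨i, hi⟩ := mem_zpow_sg ((g j).1)⁻¹
  obtain ⟨i', hi'⟩ := mem_zpow_sg ((g j).2)⁻¹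
  have hx' : cj f (((g j).1)⁻¹, 1) ∈ (closure ({x, y} : Set (P ≀ᵣ (C r × C s)))) := by
    have h2 : cj f (((g j).1)⁻¹, 1) = x ^ i := by
      rw [← map_pow]
      congr 1
      refine Prod.ext ?_ ?_
      · rw [Prod.pow_fst]; exact hi
      · rw [Prod.pow_snd, one_pow]
    rw [h2]
    exact pow_mem hx i
  have hy' : cj 1 (1, ((g j).2)⁻¹) ∈ (closure ({x, y} : Set (P ≀ᵣ (C r × C s)))) := by
    have h2 : cj 1 (1, ((g j).2)⁻¹) = y ^ i' := by
      rw [← map_pow]
      congr 1
      refine Prod.ext ?_ ?_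
      · rw [Prod.pow_fst, one_pow]
      · rw [Prod.pow_snd]; exact hi'
    rw [h2]
    exact pow_mem hy i'
  have h3 := comm_mem_core _ f _ _ (hf1 1 (Or.inl rfl)) (hf1 _ (Or.inr (by simp)))
    (hf1 _ (Or.inl (by simp))) hx' hy'
  have h4 : (((g j).1)⁻¹, (1 : C s)) * ((1 : C r), ((g j).2)⁻¹) = (g j)⁻¹ := by
    refine Prod.ext ?_ ?_ <;> simp
  rw [h4, inv_inv, hj] at h3
  exact h3

/-- case (ii) -/
theorem rank_base {a s : ℕ} (hs : 1 ≤ s) (h : FinTwo (a * s) a s) : Finite (Bu s a) := by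
  classical
  have : NeZero s := ⟨by omega⟩
  let P := Bu s a
  let f : C s → P := fun v => bg s a ⟨(Multiplicative.toAdd v).val, ZMod.val_lt _⟩
  let x : P ≀ᵣ C s := ba f
  let y : P ≀ᵣ C s := cj 1 (sg s)
  have hfin : Finite (closure ({x, y} : Set (P ≀ᵣ C s))) := by
    refine h _ ?_ x y (ba_pow (bu_exp _ _) _) ?_
    · intro w
      rw [mul_comm a]
      exact exp_wreath (bu_exp _ a) (c_pow s) w
    · rw [← map_pow, c_pow, map_one]
  refine finite_of_core _ hfin ?_
  rw [eq_top_iff, ← bg_top, closure_le]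
  rintro _ ⟨j, rfl⟩
  have hx : x ∈ (closure ({x, y} : Set (P ≀ᵣ C s))) := subset_closure (by simp)
  have hy : y ∈ (closure ({x, y} : Set (P ≀ᵣ C s))) := subset_closure (by simp)
  obtain ⟨i, hi⟩ := mem_zpow_sg (Multiplicative.ofAdd (j.1 : ZMod s))⁻¹
  have hy' : cj 1 (Multiplicative.ofAdd (j.1 : ZMod s))⁻¹ ∈ (closure ({x, y} : Set (P ≀ᵣ C s))) := by
    rw [hi, map_pow]
    exact pow_mem hy i
  refine ⟨_, mul_mem (mul_mem hy' hx) (inv_mem hy'), ?_, ?_⟩
  · simp [x, ba, cj_right]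
  · rw [← map_inv (cj (1 : C s → P))]
    simp only [RegularWreathProduct.mul_left, Pi.mul_apply, RegularWreathProduct.mul_right, cj_right,
        io_left, mul_one, one_mul, inv_inv]
    change bg s a ⟨((j.1 : ZMod s)).val, _⟩ = _
    refine congrArg _ (Fin.ext ?_)
    exact ZMod.val_cast_of_lt j.2

end Pool.Agent.X267.Wr
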