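import Mathlib

set_option autoImplicit false

/-!
# Sandwich sets

A set `X` of elements of a group of exponent `5`, invariant under conjugation, is a sandwich set if
any two of its elements generate a subgroup of class at most `2`. It is contained in a sandwich set
which is closed under commutators.
-/

namespace Pool.Agent.X267.Sand

open scoped commutatorElement

universe u

variable {G : Type u} [Group G]

/-- a sandwich set -/
structure SW (X : Set G) : Prop where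
  conj : ∀ x ∈ X, ∀ g : G, g * x * g⁻¹ ∈ X
  sw : ∀ x ∈ X, ∀ y ∈ X, Commute x (y * x * y⁻¹)

/-- `c` and `u` generate a subgroup of class at most two -/
def Two (c u : G) : Prop := Commute c (u * c * u⁻¹) ∧ Commute u (c * u * c⁻¹)

theorem SW.two {X : Set G} (h : SW X) {x y : G} (hx : x ∈ X) (hy : y ∈ X) : Two x y :=
  ⟨h.sw x hx y hy, h.sw y hy x hx⟩

theorem Two.symm {c u : G} (h : Two c u) : Two u c := ⟨h.2, h.1⟩

theorem Two.conj {c u : G} (h : Two c u) (g : G) : Two (g * c * g⁻¹) (g * u * g⁻¹) := by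
  constructor
  · have h1 := h.1.conj g
    have e : g * (u * c * u⁻¹) * g⁻¹ = g * u * g⁻¹ * (g * c * g⁻¹) * (g * u * g⁻¹)⁻¹ := by group
    rwa [e] at h1
  · have h1 := h.2.conj g
    have e : g * (c * u * c⁻¹) * g⁻¹ = g * c * g⁻¹ * (g * u * g⁻¹) * (g * c * g⁻¹)⁻¹ := by group
    rwa [e] at h1

theorem Two.comm_left {c u : G} (h : Two c u) : Commute c ⁅u, c⁆ := by
  rw [commutatorElement_def]
  exact h.1.mul_right (Commute.refl c).inv_right

theorem Two.comm_right {c u : G} (h : Two c u) : Commute u ⁅u, c⁆ := by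
  rw [commutatorElement_def]
  have e : u * c * u⁻¹ * c⁻¹ = u * (c * u * c⁻¹)⁻¹ := by group
  rw [e]
  exact (Commute.refl u).mul_right h.2.inv_right

/-- conjugation by powers -/
theorem Two.pow {c u : G} (h : Two c u) (i : ℕ) : u ^ i * c * (u ^ i)⁻¹ = ⁅u, c⁆ ^ i * c := by
  induction i with
  | zero => simp
  | succ i ih =>
    have h1 : u ^ (i + 1) * c * (u ^ (i + 1))⁻¹ = u * (u ^ i * c * (u ^ i)⁻¹) * u⁻¹ := by
      rw [pow_succ']; group
    rw [h1, ih]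
    have h2 : u * ⁅u, c⁆ ^ i = ⁅u, c⁆ ^ i * u := (h.comm_right.pow_right i).eq
    have h3 : u * c * u⁻¹ = ⁅u, c⁆ * c := by rw [commutatorElement_def]; group
    calc u * (⁅u, c⁆ ^ i * c) * u⁻¹ = (u * ⁅u, c⁆ ^ i) * c * u⁻¹ := by group
      _ = ⁅u, c⁆ ^ i * (u * c * u⁻¹) := by rw [h2]; group
      _ = ⁅u, c⁆ ^ (i + 1) * c := by rw [h3, pow_succ]; group

theorem Two.commute_pow {c u : G} (h : Two c u) (i : ℕ) : Commute c (u ^ i * c * (u ^ i)⁻¹) := by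
  rw [h.pow]
  exact (h.comm_left.pow_right i).mul_right (Commute.refl c)

/-- `c` is a combination of its conjugates by `u` and `u ^ 2` -/
theorem Two.extra {c u : G} (h : Two c u) :
    c = (u * c * u⁻¹) ^ 2 * (u ^ 2 * c * (u ^ 2)⁻¹)⁻¹ := by
  have h1 := h.pow 1
  rw [pow_one, pow_one] at h1
  rw [h1, h.pow 2, (show Commute ⁅u, c⁆ c from h.comm_left.symm).mul_pow]
  have h2 : c * ⁅u, c⁆ = ⁅u, c⁆ * c := h.comm_left.eq
  have h3 : Commute c (⁅u, c⁆ ^ 2) := h.comm_left.pow_right 2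
  rw [mul_inv_rev]
  calc c = c ^ 2 * c⁻¹ := by group
    _ = ⁅u, c⁆ ^ 2 * (c ^ 2 * c⁻¹) * (⁅u, c⁆ ^ 2)⁻¹ := by
        have h4 : Commute (⁅u, c⁆ ^ 2) (c ^ 2 * c⁻¹) :=
          ((h3.symm.pow_right 2).mul_right h3.symm.inv_right)
        rw [h4.eq]; group
    _ = ⁅u, c⁆ ^ 2 * c ^ 2 * (c⁻¹ * (⁅u, c⁆ ^ 2)⁻¹) := by group

/-- the midpoint -/
theorem Two.mid {c u : G} (h : Two c u) (h5 : ⁅u, c⁆ ^ 5 = 1) :
    c * (u * c * u⁻¹) = (u ^ 3 * c * (u ^ 3)⁻¹) ^ 2 := by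
  have h1 := h.pow 1
  rw [pow_one, pow_one] at h1
  rw [h1, h.pow 3, ((h.comm_left.symm).pow_left 3).mul_pow, ← pow_mul]
  have h2 : ⁅u, c⁆ ^ (3 * 2) = ⁅u, c⁆ := by
    rw [show 3 * 2 = 5 + 1 by norm_num, pow_succ, h5, one_mul]
  rw [h2, pow_two, ← mul_assoc, h.comm_left.eq, mul_assoc]

/-- The main lemma on a commutator `w = ⁅a, b⁆`. -/
theorem main_lemma (h5 : ∀ g : G, g ^ 5 = 1) {X : Set G} (hX : SW X) {c a b : G}
    (hc : ∀ u ∈ X, Two c u) (ha : a ∈ X) (hb : b ∈ X) :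
    Commute c (⁅a, b⁆ * c * ⁅a, b⁆⁻¹) ∧ Commute ⁅⁅a, b⁆, c⁆ a := by
  obtain ⟨w, hw⟩ : ∃ w, w = ⁅a, b⁆ := ⟨_, rfl⟩
  rw [← hw]
  have hab := hX.two ha hb
  have wa : Commute a w := by
    rw [hw, ← inv_inv ⁅a, b⁆, commutatorElement_inv]
    exact hab.comm_left.inv_right
  have wb : Commute b w := by
    rw [hw, ← inv_inv ⁅a, b⁆, commutatorElement_inv]
    exact hab.comm_right.inv_right
  have w5 : w ^ 5 = 1 := h5 w
  -- `a * w ^ i` is in `X`
  have aw : ∀ i : ℤ, a * w ^ i ∈ X := by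
    intro i
    have h1 := hX.conj a ha (b ^ (-i))
    have h2 : b * a * b⁻¹ = w⁻¹ * a := by
      rw [hw, commutatorElement_inv, commutatorElement_def]; group
    have h3 : ∀ j : ℤ, b ^ j * a * (b ^ j)⁻¹ = w ^ (-j) * a := by
      have hb' : Two a b := hab
      intro j
      induction j using Int.induction_on with
      | zero => simp
      | succ j ih =>
        have e1 : b ^ ((j : ℤ) + 1) * a * (b ^ ((j : ℤ) + 1))⁻¹ =
            b * (b ^ (j : ℤ) * a * (b ^ (j : ℤ))⁻¹) * b⁻¹ := by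
          rw [add_comm, zpow_add, zpow_one]; group
        rw [e1, ih]
        have e2 : b * w ^ (-(j : ℤ)) = w ^ (-(j : ℤ)) * b := (wb.zpow_right _).eq
        calc b * (w ^ (-(j : ℤ)) * a) * b⁻¹ = (b * w ^ (-(j : ℤ))) * a * b⁻¹ := by group
          _ = w ^ (-(j : ℤ)) * (b * a * b⁻¹) := by rw [e2]; group
          _ = w ^ (-((j : ℤ) + 1)) * a := by rw [h2, neg_add, zpow_add, zpow_neg_one]; group
      | pred j ih =>
        have h2' : b⁻¹ * a * b = w * a := by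
          have e3 : b⁻¹ * (w⁻¹ * a) * b = a := by rw [← h2]; group
          have e4 : b⁻¹ * w⁻¹ = w⁻¹ * b⁻¹ := (wb.inv_left.inv_right).eq
          have e5 : w⁻¹ * (b⁻¹ * a * b) = a := by
            calc w⁻¹ * (b⁻¹ * a * b) = (w⁻¹ * b⁻¹) * a * b := by group
              _ = b⁻¹ * (w⁻¹ * a) * b := by rw [← e4]; group
              _ = a := e3
          calc b⁻¹ * a * b = w * (w⁻¹ * (b⁻¹ * a * b)) := by group
            _ = w * a := by rw [e5]
        have e1 : b ^ (-(j : ℤ) - 1) * a * (b ^ (-(j : ℤ) - 1))⁻¹ =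
            b⁻¹ * (b ^ (-(j : ℤ)) * a * (b ^ (-(j : ℤ)))⁻¹) * b := by
          rw [sub_eq_add_neg, add_comm, zpow_add, zpow_neg_one]; group
        rw [e1, ih]
        have e2 : b⁻¹ * w ^ (- -(j : ℤ)) = w ^ (- -(j : ℤ)) * b⁻¹ := ((wb.zpow_right _).inv_left).eq
        calc b⁻¹ * (w ^ (- -(j : ℤ)) * a) * b = (b⁻¹ * w ^ (- -(j : ℤ))) * a * b := by group
          _ = w ^ (- -(j : ℤ)) * (b⁻¹ * a * b) := by rw [e2]; group
          _ = w ^ (-(-(j : ℤ) - 1)) * a := by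
              rw [h2', neg_sub, sub_eq_add_neg, add_comm, zpow_add, zpow_one]; group
    rw [h3, neg_neg, (wa.symm.zpow_left i).eq] at h1
    exact h1
  have ax : a * w ∈ X := by simpa using aw 1
  have ax2 : a * w ^ 2 ∈ X := by simpa using aw 2
  have axi : a * w⁻¹ ∈ X := by simpa using aw (-1)
  -- the conjugate of `c` by `w`
  obtain ⟨c', hc'⟩ : ∃ c', c' = w * c * w⁻¹ := ⟨_, rfl⟩
  have gc' : ∀ u ∈ X, Two c' u := by
    intro u hu
    have h1 := (hc (w⁻¹ * u * w⁻¹⁻¹) (hX.conj u hu w⁻¹)).conj w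
    have e : w * (w⁻¹ * u * w⁻¹⁻¹) * w⁻¹ = u := by group
    rw [e] at h1
    rw [hc']
    exact h1
  have t1 : Two c' (a * w⁻¹) := gc' _ axi
  have e1 : (a * w⁻¹) * c' * (a * w⁻¹)⁻¹ = a * c * a⁻¹ := by rw [hc']; group
  have e2 : (a * w⁻¹) ^ 2 * c' * ((a * w⁻¹) ^ 2)⁻¹ = (a * w ^ 2) ^ 2 * c * ((a * w ^ 2) ^ 2)⁻¹ := by
    have f1 : (a * w⁻¹) ^ 2 * w = (a * w ^ 2) ^ 2 := by
      rw [wa.inv_right.mul_pow, (wa.pow_right 2).mul_pow]
      have f2 : (w ^ 2) ^ 2 = w⁻¹ := by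
        rw [← pow_mul, eq_inv_iff_mul_eq_one, ← pow_succ]; exact w5
      rw [f2]; group
    rw [hc', ← f1]; group
  have k1 : Commute c c' := by
    rw [t1.extra, e1, e2]
    exact ((hc a ha).1.pow_right 2).mul_right ((hc _ ax2).commute_pow 2).inv_right
  refine ⟨hc' ▸ k1, ?_⟩
  have t2 : Two c (a * w) := hc _ ax
  have m1 := t2.mid (h5 _)
  have m2 := t1.mid (h5 _)
  have e3 : (a * w⁻¹) ^ 3 * c' * ((a * w⁻¹) ^ 3)⁻¹ = (a * w) ^ 3 * c * ((a * w) ^ 3)⁻¹ := by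
    have f1 : (a * w⁻¹) ^ 3 * w = (a * w) ^ 3 := by
      rw [wa.inv_right.mul_pow, wa.mul_pow]
      have f2 : w⁻¹ ^ 3 * w = w ^ 3 := by
        have : w ^ 3 = w⁻¹ ^ 3 * w * w ^ 5 := by group
        rw [this, w5, mul_one]
      rw [mul_assoc, f2]
    rw [hc', ← f1]; group
  rw [e3, ← m1, e1] at m2
  -- m2 : c' * (a * c * a⁻¹) = c * (a * w * c * (a * w)⁻¹)
  have k2 : Commute ⁅w, c⁆ a := by
    have f1 : ⁅w, c⁆ = c' * c⁻¹ := by rw [hc', commutatorElement_def]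
    have f2 : a * w * c * (a * w)⁻¹ = a * c' * a⁻¹ := by rw [hc']; group
    rw [f2] at m2
    have f3 : a * (c' * c⁻¹) * a⁻¹ = c' * c⁻¹ := by
      have g1 : a * c' * a⁻¹ = c⁻¹ * c' * (a * c * a⁻¹) := by
        rw [mul_assoc c⁻¹, m2]; group
      calc a * (c' * c⁻¹) * a⁻¹ = (a * c' * a⁻¹) * (a * c * a⁻¹)⁻¹ := by group
        _ = c⁻¹ * c' := by rw [g1]; group
        _ = c' * c⁻¹ := (k1.inv_left).eq
    rw [f1]
    have f4 : a * (c' * c⁻¹) = (c' * c⁻¹) * a := by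
      calc a * (c' * c⁻¹) = (a * (c' * c⁻¹) * a⁻¹) * a := by group
        _ = (c' * c⁻¹) * a := by rw [f3]
    exact (show Commute a (c' * c⁻¹) from f4).symm
  exact k2

/-- The main lemma, second part. -/
theorem main_lemma' (h5 : ∀ g : G, g ^ 5 = 1) {X : Set G} (hX : SW X) {c a b : G}
    (hc : ∀ u ∈ X, Two c u) (ha : a ∈ X) (hb : b ∈ X) :
    Two c ⁅a, b⁆ ∧ Commute ⁅⁅a, b⁆, c⁆ a ∧ Commute ⁅⁅a, b⁆, c⁆ b ∧ Commute ⁅⁅a, b⁆, c⁆ c := by
  obtain ⟨h1, h2⟩ := main_lemma h5 hX hc ha hb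
  obtain ⟨h3, h4⟩ := main_lemma h5 hX hc hb ha
  obtain ⟨w, hw⟩ : ∃ w, w = ⁅a, b⁆ := ⟨_, rfl⟩
  have hw' : ⁅b, a⁆ = w⁻¹ := by rw [hw, commutatorElement_inv]
  rw [hw'] at h3 h4
  rw [← hw] at h1 h2 ⊢
  have hab := hX.two ha hb
  have wb : Commute b w := by
    rw [hw, ← inv_inv ⁅a, b⁆, commutatorElement_inv]
    exact hab.comm_right.inv_right
  have wa : Commute a w := by
    rw [hw, ← inv_inv ⁅a, b⁆, commutatorElement_inv]
    exact hab.comm_left.inv_right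
  have kb : Commute ⁅w, c⁆ b := by
    have f1 := h4.conj w
    have f2 : w * b * w⁻¹ = b := by
      rw [← wb.eq]; group
    have f3 : w * ⁅w⁻¹, c⁆ * w⁻¹ = ⁅w, c⁆⁻¹ := by
      simp only [commutatorElement_def]
      have k : w * (w⁻¹ * c * w⁻¹⁻¹ * c⁻¹) * w⁻¹ = c * (w * c⁻¹ * w⁻¹) := by group
      rw [k]; group
    rw [f2, f3] at f1
    exact inv_inv ⁅w, c⁆ ▸ f1.inv_left
  have kc : Commute ⁅w, c⁆ c := by
    rw [commutatorElement_def]
    exact (h1.mul_right (Commute.refl c).inv_right).symm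
  have kw : Commute ⁅w, c⁆ w := by
    have : w = a * b * a⁻¹ * b⁻¹ := by rw [hw, commutatorElement_def]
    rw [this]
    rw [← this]
    exact ((h2.mul_right kb).mul_right h2.inv_right).mul_right kb.inv_right |> fun h => by
      rw [← this] at h; exact h
  refine ⟨⟨h1, ?_⟩, h2, kb, kc⟩
  have f1 : c * w * c⁻¹ = ⁅w, c⁆⁻¹ * w := by rw [commutatorElement_def]; group
  rw [f1]
  exact kw.symm.inv_right.mul_right (Commute.refl w)

/-- adding the commutators -/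
theorem SW.extend (h5 : ∀ g : G, g ^ 5 = 1) {X : Set G} (hX : SW X) :
    SW (X ∪ {w | ∃ a ∈ X, ∃ b ∈ X, w = ⁅a, b⁆}) := by
  have good : ∀ w ∈ X ∪ {w | ∃ a ∈ X, ∃ b ∈ X, w = ⁅a, b⁆}, ∀ u ∈ X, Two w u := by
    rintro w (hw | ⟨a, ha, b, hb, rfl⟩) u hu
    · exact hX.two hw hu
    · exact (main_lemma' h5 hX (fun v hv => hX.two hu hv) ha hb).1.symm
  constructor
  · rintro x (hx | ⟨a, ha, b, hb, rfl⟩) g
    · exact Or.inl (hX.conj x hx g)
    · refine Or.inr ⟨g * a * g⁻¹, hX.conj a ha g, g * b * g⁻¹, hX.conj b hb g, ?_⟩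
      simp only [commutatorElement_def]; group
  · rintro x hx y (hy | ⟨a, ha, b, hb, rfl⟩)
    · exact (good x hx y hy).1
    · exact (main_lemma' h5 hX (good x hx) ha hb).1.1

/-- a sandwich set is contained in one which is closed under commutators -/
theorem exists_max (h5 : ∀ g : G, g ^ 5 = 1) {X : Set G} (hX : SW X) :
    ∃ M : Set G, X ⊆ M ∧ SW M ∧ ∀ a ∈ M, ∀ b ∈ M, ⁅a, b⁆ ∈ M := by
  obtain ⟨M, hXM, hM⟩ := zorn_subset_nonempty {S : Set G | SW S} (by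
    intro c hc hch hne
    refine ⟨⋃₀ c, ?_, fun s hs => Set.subset_sUnion_of_mem hs⟩
    constructor
    · rintro x ⟨S, hS, hx⟩ g
      exact ⟨S, hS, (hc hS).conj x hx g⟩
    · rintro x ⟨S, hS, hx⟩ y ⟨T, hT, hy⟩
      rcases hch.total hS hT with h | h
      · exact (hc hT).sw x (h hx) y hy
      · exact (hc hS).sw x hx y (h hy)) X hX
  have hM1 : SW M := hM.1
  refine ⟨M, hXM, hM1, fun a ha b hb => ?_⟩
  have h1 := hM.2 (hM1.extend h5) Set.subset_union_left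
  exact h1 (Or.inr ⟨a, ha, b, hb, rfl⟩)

end Pool.Agent.X267.Sand
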