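import Pool.Agent.X267.SandA

set_option autoImplicit false

/-!
# Commutators in a closed sandwich set
-/

namespace Pool.Agent.X267.Sand

open scoped commutatorElement

universe u v

/-- the right-normed commutator -/
def C {G : Type u} [Group G] (x : G) (l : List G) : G := l.foldr (fun y c => ⁅y, c⁆) x

section
variable {G : Type u} [Group G]

@[simp] theorem C_nil (x : G) : C x [] = x := rfl

@[simp] theorem C_cons (x y : G) (l : List G) : C x (y :: l) = ⁅y, C x l⁆ := rfl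

theorem C_append (x : G) (l l' : List G) : C x (l ++ l') = C (C x l') l := List.foldr_append

theorem C_one (l : List G) : C (1 : G) l = 1 := by
  induction l with
  | nil => rfl
  | cons y l ih => rw [C_cons, ih, commutatorElement_one_right]

theorem conj_comm (g x y : G) : g * ⁅x, y⁆ * g⁻¹ = ⁅g * x * g⁻¹, g * y * g⁻¹⁆ := by
  simp only [commutatorElement_def]; group

theorem conj_C (g x : G) (l : List G) :
    g * C x l * g⁻¹ = C (g * x * g⁻¹) (l.map fun y => g * y * g⁻¹) := by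
  induction l with
  | nil => rfl
  | cons y l ih => rw [List.map_cons, C_cons, C_cons, conj_comm, ih]

theorem comm_mul (y q p : G) : ⁅y, q * p⁆ = ⁅y, q⁆ * (q * ⁅y, p⁆ * q⁻¹) := by
  simp only [commutatorElement_def]; group

theorem comm_one {x y : G} (h : Commute x y) : ⁅x, y⁆ = 1 := commutatorElement_eq_one_iff_commute.2 h

theorem of_comm_one {x y : G} (h : ⁅x, y⁆ = 1) : Commute x y := commutatorElement_eq_one_iff_commute.1 h

/-- a closed sandwich set -/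
structure CS (M : Set G) : Prop extends SW M where
  exp : ∀ g : G, g ^ 5 = 1
  comm : ∀ a ∈ M, ∀ b ∈ M, ⁅a, b⁆ ∈ M

variable {M : Set G}

theorem CS.C_mem (h : CS M) {x : G} (hx : x ∈ M) {l : List G} (hl : ∀ y ∈ l, y ∈ M) : C x l ∈ M := by
  induction l with
  | nil => exact hx
  | cons y l ih =>
    rw [C_cons]
    exact h.comm _ (hl y (by simp)) _ (ih fun z hz => hl z (by simp [hz]))

theorem CS.comm1 (h : CS M) {x y : G} (hx : x ∈ M) (hy : y ∈ M) : Commute x ⁅y, x⁆ :=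
  (h.toSW.two hx hy).comm_left

theorem CS.comm2 (h : CS M) {x y : G} (hx : x ∈ M) (hy : y ∈ M) : Commute y ⁅y, x⁆ :=
  (h.toSW.two hx hy).comm_right

/-- three elements of `M` generate a group of class at most three -/
theorem CS.three (h : CS M) {a b c : G} (ha : a ∈ M) (hb : b ∈ M) (hc : c ∈ M) :
    Commute ⁅c, ⁅a, b⁆⁆ a ∧ Commute ⁅c, ⁅a, b⁆⁆ b ∧ Commute ⁅c, ⁅a, b⁆⁆ c := by
  obtain ⟨-, h1, h2, h3⟩ := main_lemma' h.exp h.toSW (fun u hu => h.toSW.two hc hu) ha hb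
  have e : ⁅c, ⁅a, b⁆⁆ = ⁅⁅a, b⁆, c⁆⁻¹ := (commutatorElement_inv _ _).symm
  rw [e]
  exact ⟨h1.inv_left, h2.inv_left, h3.inv_left⟩

/-- inverses -/
theorem CS.comm_inv (h : CS M) {y r : G} (hy : y ∈ M) (hr : r ∈ M) : ⁅y, r⁻¹⁆ = ⁅y, r⁆⁻¹ := by
  have h1 := h.comm1 hr hy
  have h2 : r⁻¹ * ⁅y, r⁆⁻¹ * r = ⁅y, r⁆⁻¹ := by
    have := (h1.inv_inv).eq
    rw [this]; group
  calc ⁅y, r⁻¹⁆ = r⁻¹ * ⁅y, r⁆⁻¹ * r := by simp only [commutatorElement_def]; group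
    _ = _ := h2

theorem CS.C_inv (h : CS M) {r : G} (hr : r ∈ M) {l : List G} (hl : ∀ y ∈ l, y ∈ M) :
    C r⁻¹ l = (C r l)⁻¹ := by
  induction l with
  | nil => rfl
  | cons y l ih =>
    rw [C_cons, C_cons, ih fun z hz => hl z (by simp [hz])]
    exact h.comm_inv (hl y (by simp)) (h.C_mem hr fun z hz => hl z (by simp [hz]))

/-- the Jacobi identity -/
theorem CS.jacobi (h : CS M) {a b t : G} (ha : a ∈ M) (hb : b ∈ M) (ht : t ∈ M) :
    ⁅b, ⁅a, t⁆⁆ = ⁅a, ⁅b, t⁆⁆ * ⁅⁅b, a⁆, t⁆ := by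
  obtain ⟨u, hu⟩ : ∃ u, u = ⁅b, a⁆ := ⟨_, rfl⟩
  have huM : u ∈ M := hu ▸ h.comm _ hb _ ha
  have ub : Commute u b := hu ▸ (h.comm2 ha hb).symm
  have ua : Commute u a := hu ▸ (h.comm1 ha hb).symm
  -- central elements
  obtain ⟨p1, p2, p3⟩ := h.three hb ht ha
  obtain ⟨q1, q2, q3⟩ := h.three ha ht hb
  have hbt : ⁅b, t⁆ ∈ M := h.comm _ hb _ ht
  -- `u` commutes with `⁅b, t⁆`
  obtain ⟨r1, r2, r3⟩ := h.three hb ha ht
  rw [← hu] at r1 r2 r3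
  have k1 : Commute u ⁅b, t⁆ := by
    have f1 : Commute (t⁻¹ * u * t) b := by
      have f2 : t⁻¹ * u * t = ⁅t, u⁆⁻¹ * u := by
        have f3 : Commute t ⁅t, u⁆⁻¹ := r3.symm.inv_right
        have f4 : t⁻¹ * (⁅t, u⁆⁻¹)⁻¹ * t = ⁅t, u⁆ := by
          rw [inv_inv]
          have := (r3.symm.inv_left).eq
          rw [this]; group
        calc t⁻¹ * u * t = t⁻¹ * (⁅t, u⁆⁻¹ * (⁅t, u⁆ * u)) * t := by group
          _ = t⁻¹ * (⁅t, u⁆⁻¹ * (t * u * t⁻¹)) * t := by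
              have : ⁅t, u⁆ * u = t * u * t⁻¹ := by rw [commutatorElement_def]; group
              rw [this]
          _ = (t⁻¹ * ⁅t, u⁆⁻¹ * t) * u := by group
          _ = ⁅t, u⁆⁻¹ * u := by
              have : t⁻¹ * ⁅t, u⁆⁻¹ * t = ⁅t, u⁆⁻¹ := by
                have := (f3.inv_left).eq
                rw [this]; group
              rw [this]
      rw [f2]
      exact r1.inv_left.mul_left ub
    have f5 := f1.conj t
    have f6 : t * (t⁻¹ * u * t) * t⁻¹ = u := by group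
    rw [f6] at f5
    have f7 : ⁅b, t⁆ = b * (t * b * t⁻¹)⁻¹ := by rw [commutatorElement_def]; group
    rw [f7]
    exact ub.mul_right f5.inv_right
  -- `⁅a, t⁆` commutes with `⁅b, t⁆`
  have k2 : Commute ⁅a, t⁆ ⁅b, t⁆ := by
    have g1 : Commute ⁅a, t⁆ t := (h.comm1 ht ha).symm
    -- `b⁻¹ ⁅a,t⁆ b` commutes with `t`
    have g2 : b⁻¹ * ⁅a, t⁆ * b = ⁅b, ⁅a, t⁆⁆⁻¹ * ⁅a, t⁆ := by
      have f3 : Commute b ⁅b, ⁅a, t⁆⁆⁻¹ := q3.symm.inv_right
      calc b⁻¹ * ⁅a, t⁆ * b = b⁻¹ * (⁅b, ⁅a, t⁆⁆⁻¹ * (⁅b, ⁅a, t⁆⁆ * ⁅a, t⁆)) * b := by group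
        _ = b⁻¹ * (⁅b, ⁅a, t⁆⁆⁻¹ * (b * ⁅a, t⁆ * b⁻¹)) * b := by
            have : ⁅b, ⁅a, t⁆⁆ * ⁅a, t⁆ = b * ⁅a, t⁆ * b⁻¹ := by
              rw [commutatorElement_def b]; group
            rw [this]
        _ = (b⁻¹ * ⁅b, ⁅a, t⁆⁆⁻¹ * b) * ⁅a, t⁆ := by group
        _ = ⁅b, ⁅a, t⁆⁆⁻¹ * ⁅a, t⁆ := by
            have : b⁻¹ * ⁅b, ⁅a, t⁆⁆⁻¹ * b = ⁅b, ⁅a, t⁆⁆⁻¹ := by
              have := (f3.inv_left).eq
              rw [this]; group
            rw [this]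
    have g3 : Commute (b⁻¹ * ⁅a, t⁆ * b) t := by
      rw [g2]
      exact q2.inv_left.mul_left g1
    have g4 := g3.conj b
    have g5 : b * (b⁻¹ * ⁅a, t⁆ * b) * b⁻¹ = ⁅a, t⁆ := by group
    rw [g5] at g4
    rw [commutatorElement_def b t]
    exact g4.mul_right g1.inv_right
  -- both sides of the identity
  have e1 : b * (a * t * a⁻¹) * b⁻¹ = ⁅b, ⁅a, t⁆⁆ * ⁅a, t⁆ * ⁅b, t⁆ * t := by
    have f1 : a * t * a⁻¹ = ⁅a, t⁆ * t := by rw [commutatorElement_def]; group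
    rw [f1]
    have f2 : b * (⁅a, t⁆ * t) * b⁻¹ = (b * ⁅a, t⁆ * b⁻¹) * (b * t * b⁻¹) := by group
    have f3 : b * ⁅a, t⁆ * b⁻¹ = ⁅b, ⁅a, t⁆⁆ * ⁅a, t⁆ := by rw [commutatorElement_def b ⁅a, t⁆]; group
    have f4 : b * t * b⁻¹ = ⁅b, t⁆ * t := by rw [commutatorElement_def]; group
    rw [f2, f3, f4]; group
  have e2 : a * (b * t * b⁻¹) * a⁻¹ = ⁅a, ⁅b, t⁆⁆ * ⁅b, t⁆ * ⁅a, t⁆ * t := by
    have f1 : b * t * b⁻¹ = ⁅b, t⁆ * t := by rw [commutatorElement_def]; group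
    rw [f1]
    have f2 : a * (⁅b, t⁆ * t) * a⁻¹ = (a * ⁅b, t⁆ * a⁻¹) * (a * t * a⁻¹) := by group
    have f3 : a * ⁅b, t⁆ * a⁻¹ = ⁅a, ⁅b, t⁆⁆ * ⁅b, t⁆ := by rw [commutatorElement_def a ⁅b, t⁆]; group
    have f4 : a * t * a⁻¹ = ⁅a, t⁆ * t := by rw [commutatorElement_def]; group
    rw [f2, f3, f4]; group
  have e3 : b * (a * t * a⁻¹) * b⁻¹ = u * (a * (b * t * b⁻¹) * a⁻¹) * u⁻¹ := by
    rw [hu, commutatorElement_def]; group
  have ua' : Commute u ⁅a, ⁅b, t⁆⁆ := by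
    have : Commute ⁅a, ⁅b, t⁆⁆ ⁅b, a⁆ := by
      rw [commutatorElement_def b a]
      exact ((p1.mul_right p3).mul_right p1.inv_right).mul_right p3.inv_right
    exact (hu ▸ this).symm
  have k3 : Commute u ⁅a, t⁆ := by
    -- symmetric to `k1`
    have f1 : Commute (t⁻¹ * u * t) a := by
      have f2 : t⁻¹ * u * t = ⁅t, u⁆⁻¹ * u := by
        have f3 : Commute t ⁅t, u⁆⁻¹ := r3.symm.inv_right
        calc t⁻¹ * u * t = t⁻¹ * (⁅t, u⁆⁻¹ * (⁅t, u⁆ * u)) * t := by group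
          _ = t⁻¹ * (⁅t, u⁆⁻¹ * (t * u * t⁻¹)) * t := by
              have : ⁅t, u⁆ * u = t * u * t⁻¹ := by rw [commutatorElement_def]; group
              rw [this]
          _ = (t⁻¹ * ⁅t, u⁆⁻¹ * t) * u := by group
          _ = ⁅t, u⁆⁻¹ * u := by
              have : t⁻¹ * ⁅t, u⁆⁻¹ * t = ⁅t, u⁆⁻¹ := by
                have := (f3.inv_left).eq
                rw [this]; group
              rw [this]
      rw [f2]
      exact r2.inv_left.mul_left ua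
    have f5 := f1.conj t
    have f6 : t * (t⁻¹ * u * t) * t⁻¹ = u := by group
    rw [f6] at f5
    have f7 : ⁅a, t⁆ = a * (t * a * t⁻¹)⁻¹ := by rw [commutatorElement_def]; group
    rw [f7]
    exact ua.mul_right f5.inv_right
  have e4 : u * (⁅a, ⁅b, t⁆⁆ * ⁅b, t⁆ * ⁅a, t⁆ * t) * u⁻¹ =
      ⁅a, ⁅b, t⁆⁆ * ⁅b, t⁆ * ⁅a, t⁆ * (⁅u, t⁆ * t) := by
    have f1 : Commute u (⁅a, ⁅b, t⁆⁆ * ⁅b, t⁆ * ⁅a, t⁆) := (ua'.mul_right k1).mul_right k3
    have f2 : u * t * u⁻¹ = ⁅u, t⁆ * t := by rw [commutatorElement_def]; group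
    calc u * (⁅a, ⁅b, t⁆⁆ * ⁅b, t⁆ * ⁅a, t⁆ * t) * u⁻¹
        = (u * (⁅a, ⁅b, t⁆⁆ * ⁅b, t⁆ * ⁅a, t⁆)) * t * u⁻¹ := by group
      _ = ⁅a, ⁅b, t⁆⁆ * ⁅b, t⁆ * ⁅a, t⁆ * (u * t * u⁻¹) := by rw [f1.eq]; group
      _ = _ := by rw [f2]
  have e5 : ⁅b, ⁅a, t⁆⁆ * ⁅a, t⁆ * ⁅b, t⁆ = ⁅a, ⁅b, t⁆⁆ * ⁅b, t⁆ * ⁅a, t⁆ * ⁅u, t⁆ := by
    have : ⁅b, ⁅a, t⁆⁆ * ⁅a, t⁆ * ⁅b, t⁆ * t = ⁅a, ⁅b, t⁆⁆ * ⁅b, t⁆ * ⁅a, t⁆ * ⁅u, t⁆ * t := by
      rw [← e1, e3, e2, e4]; group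
    exact mul_right_cancel this
  -- `⁅u, t⁆` commutes with `⁅a, t⁆` and `⁅b, t⁆`
  have s0 : ⁅u, t⁆ = ⁅t, u⁆⁻¹ := (commutatorElement_inv _ _).symm
  have sa : Commute ⁅u, t⁆ a := s0 ▸ r2.inv_left
  have sb : Commute ⁅u, t⁆ b := s0 ▸ r1.inv_left
  have st : Commute ⁅u, t⁆ t := s0 ▸ r3.inv_left
  have s1 : Commute ⁅u, t⁆ (⁅a, t⁆ * ⁅b, t⁆) := by
    rw [commutatorElement_def a t, commutatorElement_def b t]
    exact (((sa.mul_right st).mul_right sa.inv_right).mul_right st.inv_right).mul_right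
      (((sb.mul_right st).mul_right sb.inv_right).mul_right st.inv_right)
  have e6 : ⁅b, ⁅a, t⁆⁆ * (⁅a, t⁆ * ⁅b, t⁆) = ⁅a, ⁅b, t⁆⁆ * ⁅u, t⁆ * (⁅a, t⁆ * ⁅b, t⁆) := by
    calc ⁅b, ⁅a, t⁆⁆ * (⁅a, t⁆ * ⁅b, t⁆) = ⁅b, ⁅a, t⁆⁆ * ⁅a, t⁆ * ⁅b, t⁆ := by group
      _ = ⁅a, ⁅b, t⁆⁆ * (⁅b, t⁆ * ⁅a, t⁆) * ⁅u, t⁆ := by rw [e5]; group
      _ = ⁅a, ⁅b, t⁆⁆ * ((⁅a, t⁆ * ⁅b, t⁆) * ⁅u, t⁆) := by rw [← k2.eq]; group
      _ = _ := by rw [← s1.eq]; group
  have e7 := mul_right_cancel e6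
  rw [e7, hu]

/-- `x` commutes with all right-normed commutators of length `n` starting with `x` -/
def PP (M : Set G) (x : G) (n : ℕ) : Prop :=
  ∀ l : List G, (∀ y ∈ l, y ∈ M) → l.length = n → Commute x (C x l)

theorem CS.pp_small (h : CS M) {x : G} (hx : x ∈ M) {n : ℕ} (hn : n < 3) : PP M x n := by
  intro l hl hn'
  match l, hn' with
  | [], _ => exact Commute.refl x
  | [y], _ => exact h.comm1 hx (hl y (by simp))
  | [z, y], _ => exact (h.three (hl y (by simp)) hx (hl z (by simp))).2.1.symm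
  | _ :: _ :: _ :: _, hn' => simp at hn'; omega

/-- right-normed commutators of length `n` -/
def Cn (M : Set G) (x : G) (n : ℕ) (p : G) : Prop :=
  ∃ l : List G, (∀ y ∈ l, y ∈ M) ∧ l.length = n ∧ p = C x l

theorem CS.Cn_conj (h : CS M) {x g : G} (hg : Commute g x) {n : ℕ} {p : G} (hp : Cn M x n p) :
    Cn M x n (g * p * g⁻¹) := by
  obtain ⟨l, hl, hn, rfl⟩ := hp
  refine ⟨l.map fun y => g * y * g⁻¹, ?_, by rw [List.length_map, hn], ?_⟩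
  · intro y hy
    rw [List.mem_map] at hy
    obtain ⟨z, hz, rfl⟩ := hy
    exact h.conj z (hl z hz) g
  · rw [conj_C]
    have : g * x * g⁻¹ = x := by rw [hg.eq]; group
    rw [this]

theorem Cn.cons {x : G} {n : ℕ} {p : G} (hp : Cn M x n p) {y : G} (hy : y ∈ M) :
    Cn M x (n + 1) ⁅y, p⁆ := by
  obtain ⟨l, hl, hn, rfl⟩ := hp
  refine ⟨y :: l, ?_, by rw [List.length_cons, hn], rfl⟩
  intro z hz
  rw [List.mem_cons] at hz
  rcases hz with rfl | hz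
  · exact hy
  · exact hl z hz

theorem CS.split (h : CS M) {x : G} {lq : List G} (hq : ∀ y ∈ lq, y ∈ M) {np : ℕ} {p : G}
    (hp : Cn M x np p) (l2 : List G) (h2 : ∀ y ∈ l2, y ∈ M)
    (H : ∀ j, lq.length ≤ j → j < lq.length + l2.length → PP M x j) :
    ∃ p', Cn M x (np + l2.length) p' ∧ C (C x lq * p) l2 = C x (l2 ++ lq) * p' := by
  induction l2 with
  | nil => exact ⟨p, hp, rfl⟩
  | cons y l2 ih =>
    obtain ⟨p', hp', he⟩ := ih (fun z hz => h2 z (by simp [hz])) (fun j h1 h3 => H j h1 (by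
      rw [List.length_cons]; omega))
    have hQ : Commute x (C x (l2 ++ lq)) := by
      refine H (l2.length + lq.length) (by omega) (by rw [List.length_cons]; omega) _ ?_ (by simp)
      intro z hz
      rw [List.mem_append] at hz
      rcases hz with hz | hz
      · exact h2 z (by simp [hz])
      · exact hq z hz
    refine ⟨C x (l2 ++ lq) * ⁅y, p'⁆ * (C x (l2 ++ lq))⁻¹, ?_, ?_⟩
    · rw [List.length_cons, ← add_assoc]
      exact h.Cn_conj hQ.symm (hp'.cons (h2 y (by simp)))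
    · rw [C_cons, he, comm_mul, List.cons_append, C_cons]

/-- adjacent entries may be exchanged -/
theorem CS.swap (h : CS M) {x : G} (hx : x ∈ M) {k : ℕ} (H : ∀ j < k, PP M x j) {l1 l2 : List G}
    {a b : G} (h1 : ∀ y ∈ l1, y ∈ M) (h2 : ∀ y ∈ l2, y ∈ M) (ha : a ∈ M) (hb : b ∈ M)
    (hk : l2.length + 2 + l1.length = k) :
    ⁅x, C x (l2 ++ b :: a :: l1)⁆ = ⁅x, C x (l2 ++ a :: b :: l1)⁆ := by
  have ht : C x l1 ∈ M := h.C_mem hx h1
  have hp : Cn M x (l1.length + 1) ⁅⁅b, a⁆, C x l1⁆ :=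
    Cn.cons ⟨l1, h1, rfl, rfl⟩ (h.comm _ hb _ ha)
  have hq : ∀ y ∈ a :: b :: l1, y ∈ M := by
    intro y hy
    simp only [List.mem_cons] at hy
    rcases hy with rfl | rfl | hy
    · exact ha
    · exact hb
    · exact h1 y hy
  obtain ⟨p', hp', he⟩ := h.split hq hp l2 h2 (fun j _ h4 => H j (by
    simp only [List.length_cons] at h4; omega))
  have e1 : C x (l2 ++ b :: a :: l1) = C x (l2 ++ a :: b :: l1) * p' := by
    rw [← he, C_append]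
    congr 1
    rw [C_cons, C_cons, C_cons, C_cons]
    exact h.jacobi ha hb ht
  obtain ⟨l, hl, hn, rfl⟩ := hp'
  have hc : Commute x (C x l) := H (l1.length + 1 + l2.length) (by omega) l hl hn
  rw [e1, comm_mul, comm_one hc]
  group

/-- the entries may be permuted -/
theorem CS.perm (h : CS M) {x : G} (hx : x ∈ M) {k : ℕ} (H : ∀ j < k, PP M x j) {l l' : List G}
    (hp : l.Perm l') : ∀ l2 : List G, (∀ y ∈ l2 ++ l, y ∈ M) → (l2 ++ l).length = k →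
      ⁅x, C x (l2 ++ l)⁆ = ⁅x, C x (l2 ++ l')⁆ := by
  induction hp with
  | nil => intros; rfl
  | cons y hp ih =>
    intro l2 hM hk
    have h1 := ih (l2 ++ [y])
    simp only [List.append_assoc, List.singleton_append] at h1
    exact h1 hM hk
  | swap a b l =>
    intro l2 hM hk
    refine h.swap hx H (fun y hy => hM y (by simp [hy])) (fun y hy => hM y (by simp [hy]))
      (hM a (by simp)) (hM b (by simp)) ?_
    simp only [List.length_append, List.length_cons] at hk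
    omega
  | trans p q ih1 ih2 =>
    intro l2 hM hk
    rw [ih1 l2 hM hk]
    refine ih2 l2 (fun y hy => hM y ?_) ?_
    · rw [List.mem_append] at hy ⊢
      exact hy.imp_right (p.mem_iff).2
    · rw [List.length_append] at hk ⊢
      rw [← p.length_eq]; exact hk

/-- the commutators are central -/
theorem CS.central (h : CS M) {x : G} (hx : x ∈ M) {l : List G} (hl : ∀ y ∈ l, y ∈ M)
    (H : ∀ j < l.length, PP M x j) {y : G} (hy : y ∈ l) :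
    Commute ⁅x, C x l⁆ y ∧ Commute ⁅x, C x l⁆ x := by
  classical
  have h1 := h.perm hx H (List.perm_cons_erase hy) [] (by simpa using hl) (by simp)
  simp only [List.nil_append] at h1
  rw [h1, C_cons]
  obtain ⟨k1, k2, k3⟩ := h.three (hl y hy) (h.C_mem hx fun z hz =>
    hl z (List.mem_of_mem_erase hz)) hx
  exact ⟨k1, k3⟩

end

end Pool.Agent.X267.Sand
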