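import Pool.Agent.X267.SandB

set_option autoImplicit false

/-!
# Expansion of conjugates, and the fifth powers
-/

namespace Pool.Agent.X267.Sand

open scoped commutatorElement

universe u v

/-- the sublists, in the order of the expansion of a conjugate -/
def S {α : Type v} : List α → List (List α)
  | [] => [[]]
  | y :: h => (S h).flatMap fun s => [y :: s, s]

theorem S_subset {α : Type v} {h s : List α} (hs : s ∈ S h) : ∀ y ∈ s, y ∈ h := by
  induction h generalizing s with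
  | nil =>
    simp only [S, List.mem_singleton] at hs
    subst hs
    simp
  | cons z h ih =>
    simp only [S, List.mem_flatMap, List.mem_cons, List.not_mem_nil, or_false] at hs
    obtain ⟨s', hs', rfl | rfl⟩ := hs
    · intro y hy
      rw [List.mem_cons] at hy ⊢
      exact hy.imp_right (ih hs' y)
    · intro y hy
      exact List.mem_cons_of_mem _ (ih hs' y hy)

section
variable {G : Type u} [Group G]

theorem conj_list (g : G) (l : List G) :
    g * l.prod * g⁻¹ = (l.map fun e => ⁅g, e⁆ * e).prod := by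
  induction l with
  | nil => simp
  | cons e l ih =>
    rw [List.map_cons, List.prod_cons, List.prod_cons, ← ih]
    simp only [commutatorElement_def]; group

/-- the expansion of a conjugate -/
theorem conj_expand {α : Type v} (f : α → G) (t : G) (h : List α) :
    (h.map f).prod * t * ((h.map f).prod)⁻¹ = ((S h).map fun s => C t (s.map f)).prod := by
  induction h with
  | nil => simp [S]
  | cons y h ih =>
    have e1 : ((y :: h).map f).prod * t * (((y :: h).map f).prod)⁻¹ =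
        f y * ((h.map f).prod * t * ((h.map f).prod)⁻¹) * (f y)⁻¹ := by
      rw [List.map_cons, List.prod_cons]; group
    rw [e1, ih, conj_list, S]
    induction S h with
    | nil => simp
    | cons s l ih2 =>
      rw [List.map_cons, List.map_cons, List.prod_cons, ih2, List.flatMap_cons, List.map_append,
        List.prod_append]
      simp [C_cons, mul_assoc]

/-- the commutator with an expanded conjugate -/
theorem comm_list {x θ : G} {α : Type v} (e : α → G) (n : α → ℕ) (l : List α)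
    (h1 : ∀ s ∈ l, ⁅x, e s⁆ = θ ^ n s) (h2 : ∀ s ∈ l, Commute θ (e s)) :
    ⁅x, (l.map e).prod⁆ = θ ^ (l.map n).sum := by
  induction l with
  | nil => simp
  | cons s l ih =>
    rw [List.map_cons, List.prod_cons, List.map_cons, List.sum_cons, comm_mul, h1 s (by simp),
      ih (fun s hs => h1 s (by simp [hs])) (fun s hs => h2 s (by simp [hs])), pow_add]
    have h3 : Commute (e s) (θ ^ (l.map n).sum) := ((h2 s (by simp)).pow_left _).symm
    rw [h3.eq]; group

/-- moving an element past another one -/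
theorem past {θ a b : G} {e : ℕ} (h : ⁅a, b⁆ = θ ^ e) : a * b = θ ^ e * (b * a) := by
  rw [← h, commutatorElement_def]; group

/-- The consequence of the fifth power law for conjugates with central commutators. -/
theorem fifth (h5 : ∀ g : G, g ^ 5 = 1) {s g θ : G} (hs : Commute θ s) (hg : Commute θ g)
    {e1 e2 e3 e4 : ℕ} (k1 : ⁅s, g ^ 1 * s * (g ^ 1)⁻¹⁆ = θ ^ e1)
    (k2 : ⁅s, g ^ 2 * s * (g ^ 2)⁻¹⁆ = θ ^ e2) (k3 : ⁅s, g ^ 3 * s * (g ^ 3)⁻¹⁆ = θ ^ e3)
    (k4 : ⁅s, g ^ 4 * s * (g ^ 4)⁻¹⁆ = θ ^ e4) : θ ^ (4 * e1 + 3 * e2 + 2 * e3 + e4) = 1 := by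
  obtain ⟨v, hvd⟩ : ∃ v : ℕ → G, ∀ m, v m = g ^ m * s * (g ^ m)⁻¹ := ⟨_, fun _ => rfl⟩
  have hv : ∀ m, Commute θ (v m) := fun m => by
    rw [hvd]
    exact ((hg.pow_right m).mul_right hs).mul_right (hg.pow_right m).inv_right
  have key : ∀ m d e : ℕ, ⁅s, g ^ d * s * (g ^ d)⁻¹⁆ = θ ^ e → ⁅v m, v (m + d)⁆ = θ ^ e := by
    intro m d e hk
    have h1 : ⁅v m, v (m + d)⁆ = g ^ m * ⁅s, g ^ d * s * (g ^ d)⁻¹⁆ * (g ^ m)⁻¹ := by
      rw [conj_comm, hvd, hvd]
      congr 1
      rw [pow_add]; group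
    rw [h1, hk]
    have h2 : Commute (g ^ m) (θ ^ e) := (hg.pow_pow e m).symm
    rw [h2.eq]; group
  have p1 : v 0 * v 1 * v 2 * v 3 * v 4 = 1 := by
    have h1 : (s * g) ^ 5 = v 0 * v 1 * v 2 * v 3 * v 4 * g ^ 5 := by
      simp only [hvd, pow_succ, pow_zero]; group
    rw [h5, h5, mul_one] at h1
    exact h1.symm
  have p2 : v 4 * v 3 * v 2 * v 1 * v 0 = 1 := by
    have h1 : (s⁻¹ * g) ^ 5 = (v 4 * v 3 * v 2 * v 1 * v 0)⁻¹ * g ^ 5 := by
      simp only [hvd, pow_succ, pow_zero]; group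
    rw [h5, h5, mul_one] at h1
    exact inv_eq_one.1 h1.symm
  have q : ∀ m d e : ℕ, ⁅s, g ^ d * s * (g ^ d)⁻¹⁆ = θ ^ e → ∀ r : G,
      v m * (v (m + d) * r) = θ ^ e * (v (m + d) * (v m * r)) := by
    intro m d e hk r
    rw [← mul_assoc, past (key m d e hk)]
    simp only [mul_assoc]
  have q01 := q 0 1 e1 k1
  have q12 := q 1 1 e1 k1
  have q23 := q 2 1 e1 k1
  have q34 := q 3 1 e1 k1
  have q02 := q 0 2 e2 k2
  have q13 := q 1 2 e2 k2
  have q24 := q 2 2 e2 k2
  have q03 := q 0 3 e3 k3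
  have q14 := q 1 3 e3 k3
  have q04 := q 0 4 e4 k4
  simp only [Nat.zero_add, Nat.reduceAdd] at q01 q12 q23 q34 q02 q13 q24 q03 q14 q04
  -- move `v 0` to the right
  have c : ∀ (e m : ℕ) (r : G), v m * (θ ^ e * r) = θ ^ e * (v m * r) := by
    intro e m r
    rw [← mul_assoc, ← mul_assoc, ((hv m).pow_left e).eq]
  have p1' : v 0 * (v 1 * (v 2 * (v 3 * (v 4 * 1)))) = 1 := by
    simpa only [mul_assoc, mul_one] using p1
  have p2' : v 4 * (v 3 * (v 2 * (v 1 * (v 0 * 1)))) = 1 := by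
    simpa only [mul_assoc, mul_one] using p2
  rw [q01, q02, c, q03, c, c, q04, c, c, c] at p1'
  rw [q12, q13, c, q14, c, c] at p1'
  rw [q23, q24, c] at p1'
  rw [q34, p2', mul_one] at p1'
  rw [← p1']
  simp only [← pow_add]
  congr 1
  ring

end

/-- `1` for the permutations of `[0, 1, 2]`, `0` for the other lists -/
def f (s : List (Fin 3)) : ℕ :=
  if s = [0, 1, 2] ∨ s = [0, 2, 1] ∨ s = [1, 0, 2] ∨ s = [1, 2, 0] ∨ s = [2, 0, 1] ∨ s = [2, 1, 0]
  then 1 else 0

theorem f1 : ((S [0, 1, 2]).map f).sum = 1 := by decide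

theorem f2 : ((S [0, 1, 2, 0, 1, 2]).map f).sum = 8 := by decide +kernel

theorem f3 : ((S [0, 1, 2, 0, 1, 2, 0, 1, 2]).map f).sum = 27 := by decide +kernel

theorem f4 : ((S [0, 1, 2, 0, 1, 2, 0, 1, 2, 0, 1, 2]).map f).sum = 64 := by decide +kernel

section
variable {G : Type u} [Group G]

/-- the commutators of `x` with the conjugates of `t` -/
theorem cubes {x t θ : G} (v : Fin 3 → G) (h1 : ∀ s : List (Fin 3), ⁅x, C t (s.map v)⁆ = θ ^ f s)
    (ht : Commute θ t) (hv : ∀ i, Commute θ (v i)) :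
    let g := v 0 * v 1 * v 2
    ⁅x, g ^ 1 * t * (g ^ 1)⁻¹⁆ = θ ^ 1 ∧ ⁅x, g ^ 2 * t * (g ^ 2)⁻¹⁆ = θ ^ 8 ∧
      ⁅x, g ^ 3 * t * (g ^ 3)⁻¹⁆ = θ ^ 27 ∧ ⁅x, g ^ 4 * t * (g ^ 4)⁻¹⁆ = θ ^ 64 := by
  intro g
  have hC : ∀ s : List (Fin 3), Commute θ (C t (s.map v)) := by
    intro s
    induction s with
    | nil => exact ht
    | cons i s ih =>
      rw [List.map_cons, C_cons, commutatorElement_def]
      exact (((hv i).mul_right ih).mul_right (hv i).inv_right).mul_right ih.inv_right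
  have key : ∀ (h : List (Fin 3)) (r : G), (h.map v).prod = r →
      ⁅x, r * t * r⁻¹⁆ = θ ^ ((S h).map f).sum := by
    rintro h r rfl
    rw [conj_expand]
    exact comm_list (fun s => C t (s.map v)) f (S h) (fun s _ => h1 s) (fun s _ => hC s)
  have k1 := key [0, 1, 2] (g ^ 1) (by simp [g, mul_assoc])
  have k2 := key [0, 1, 2, 0, 1, 2] (g ^ 2) (by simp [g, mul_assoc, pow_succ])
  have k3 := key [0, 1, 2, 0, 1, 2, 0, 1, 2] (g ^ 3) (by simp [g, mul_assoc, pow_succ])
  have k4 := key [0, 1, 2, 0, 1, 2, 0, 1, 2, 0, 1, 2] (g ^ 4) (by simp [g, mul_assoc, pow_succ])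
  rw [f1] at k1
  rw [f2] at k2
  rw [f3] at k3
  rw [f4] at k4
  exact ⟨k1, k2, k3, k4⟩

end

end Pool.Agent.X267.Sand
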