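import Pool.Agent.X267.SandC

set_option autoImplicit false

/-!
# The elements of a sandwich set in a group of exponent five generate abelian normal subgroups
-/

namespace Pool.Agent.X267.Sand

open scoped commutatorElement

universe u v

variable {G : Type u} [Group G] {M : Set G}

theorem f_eq {i j k : Fin 3} (h : f [i, j, k] = 0) : i = j ∨ j = k ∨ i = k := by
  revert i j k; decide

theorem f_ne {i j k : Fin 3} (h : f [i, j, k] ≠ 0) : ∀ m : Fin 3, m = i ∨ m = j ∨ m = k := by
  revert i j k; decide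

theorem f_perm {i j k : Fin 3} (h : f [i, j, k] ≠ 0) : f [i, j, k] = 1 ∧
    [i, j, k].Perm [0, 1, 2] := by
  revert i j k; decide

theorem f_len {s : List (Fin 3)} (h : s.length ≠ 3) : f s = 0 := by
  unfold f
  rw [if_neg]
  rintro (rfl | rfl | rfl | rfl | rfl | rfl) <;> simp at h

theorem map_mem {v : Fin 3 → G} (hv : ∀ i, v i ∈ M) (s : List (Fin 3)) :
    ∀ y ∈ s.map v, y ∈ M := by
  intro y hy
  rw [List.mem_map] at hy
  obtain ⟨i, -, rfl⟩ := hy
  exact hv i

/-- words with a repeated letter -/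
theorem CS.rep3 (h : CS M) {t : G} (ht : t ∈ M) {v : Fin 3 → G} (hv : ∀ i, v i ∈ M)
    {s : List (Fin 3)} (hs : s.length = 3) (hf : f s = 0) : C t (s.map v) = 1 := by
  match s, hs with
  | [i, j, k], _ =>
    simp only [List.map_cons, List.map_nil, C_cons, C_nil]
    rcases f_eq hf with rfl | rfl | rfl
    · exact comm_one (h.comm2 (h.comm _ (hv k) _ ht) (hv i))
    · rw [comm_one (h.comm2 ht (hv j)), commutatorElement_one_right]
    · exact comm_one (h.three (hv i) ht (hv j)).1.symm

theorem CS.rho (h : CS M) {a b c t : G} (ha : a ∈ M) (hb : b ∈ M) (hc : c ∈ M) (ht : t ∈ M) :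
    ⁅a, ⁅b, ⁅c, ⁅a, t⁆⁆⁆⁆ = ⁅a, C a [b, c, t]⁆⁻¹ := by
  have h1 : ⁅a, t⁆ = ⁅t, a⁆⁻¹ := (commutatorElement_inv _ _).symm
  have h2 : ⁅t, a⁆ ∈ M := h.comm _ ht _ ha
  have h3 : ⁅b, ⁅c, ⁅t, a⁆⁻¹⁆⁆ = ⁅b, ⁅c, ⁅t, a⁆⁆⁆⁻¹ :=
    h.C_inv (l := [b, c]) h2 (by
      intro y hy
      simp only [List.mem_cons, List.not_mem_nil, or_false] at hy
      rcases hy with rfl | rfl
      · exact hb
      · exact hc)
  rw [h1, h3]
  exact h.comm_inv ha (h.comm _ hb _ (h.comm _ hc _ h2))

/-- words of length four -/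
theorem CS.four (h : CS M) {t : G} (ht : t ∈ M) {v : Fin 3 → G} (hv : ∀ i, v i ∈ M)
    {s : List (Fin 3)} (hs : s.length = 4) :
    C t (s.map v) = 1 ∨ ∃ p q r : Fin 3, (∀ m, m = p ∨ m = q ∨ m = r) ∧
      C t (s.map v) = ⁅v r, C (v r) [v p, v q, t]⁆⁻¹ := by
  match s, hs with
  | [i, p, q, r], _ =>
    by_cases hf : f [p, q, r] = 0
    · left
      rw [List.map_cons, C_cons, h.rep3 ht hv rfl hf, commutatorElement_one_right]
    · have hm := f_ne hf
      simp only [List.map_cons, List.map_nil, C_cons, C_nil]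
      rcases hm i with rfl | rfl | rfl
      · left
        exact comm_one (h.comm2 (h.comm _ (hv q) _ (h.comm _ (hv r) _ ht)) (hv i))
      · left
        exact comm_one (h.three (hv i) (h.comm _ (hv r) _ ht) (hv p)).1.symm
      · right
        exact ⟨p, q, i, hm, h.rho (hv i) (hv p) (hv q) ht⟩

theorem CS.four_comm (h : CS M) {t : G} (ht : t ∈ M) {v : Fin 3 → G} (hv : ∀ i, v i ∈ M)
    {s : List (Fin 3)} (hs : s.length = 4) :
    Commute t (C t (s.map v)) ∧ ∀ i, Commute (v i) (C t (s.map v)) := by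
  rcases h.four ht hv hs with h1 | ⟨p, q, r, hm, h1⟩
  · rw [h1]
    exact ⟨Commute.one_right _, fun _ => Commute.one_right _⟩
  · have hl : ∀ y ∈ [v p, v q, t], y ∈ M := by
      intro y hy
      simp only [List.mem_cons, List.not_mem_nil, or_false] at hy
      rcases hy with rfl | rfl | rfl
      · exact hv _
      · exact hv _
      · exact ht
    have hH : ∀ j < [v p, v q, t].length, PP M (v r) j := fun j hj => h.pp_small (hv r) hj
    rw [h1]
    refine ⟨((h.central (hv r) hl hH (by simp)).1.symm).inv_right, fun i => ?_⟩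
    rcases hm i with rfl | rfl | rfl
    · exact ((h.central (hv r) hl hH (by simp)).1.symm).inv_right
    · exact ((h.central (hv r) hl hH (by simp)).1.symm).inv_right
    · exact ((h.central (hv _) hl hH (List.mem_cons_self)).2.symm).inv_right

theorem CS.five (h : CS M) {t : G} (ht : t ∈ M) {v : Fin 3 → G} (hv : ∀ i, v i ∈ M)
    {s : List (Fin 3)} (hs : 5 ≤ s.length) : C t (s.map v) = 1 := by
  induction s with
  | nil => simp at hs
  | cons i s ih =>
    rw [List.map_cons, C_cons]
    rw [List.length_cons] at hs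
    rcases Nat.lt_or_ge s.length 5 with h1 | h1
    · exact comm_one ((h.four_comm ht hv (s := s) (by omega)).2 i)
    · rw [ih h1, commutatorElement_one_right]

theorem comm_C {θ x : G} {l : List G} (hx : Commute θ x) (hl : ∀ y ∈ l, Commute θ y) :
    Commute θ (C x l) := by
  induction l with
  | nil => exact hx
  | cons y l ih =>
    have h1 := ih fun z hz => hl z (by simp [hz])
    have h2 := hl y (by simp)
    rw [C_cons, commutatorElement_def]
    exact ((h2.mul_right h1).mul_right h2.inv_right).mul_right h1.inv_right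

/-- the case of length three -/
theorem CS.pp_three (h : CS M) {x : G} (hx : x ∈ M) : PP M x 3 := by
  intro l hl hn
  match l, hn with
  | [y1, y2, y3], _ =>
    obtain ⟨v, hvd⟩ : ∃ v : Fin 3 → G, v = ![y1, y2, y3] := ⟨_, rfl⟩
    have hv : ∀ i, v i ∈ M := by
      intro i
      fin_cases i
      · rw [hvd]; exact hl y1 (by simp)
      · rw [hvd]; exact hl y2 (by simp)
      · rw [hvd]; exact hl y3 (by simp)
    have hvl : [0, 1, 2].map v = [y1, y2, y3] := by rw [hvd]; rfl
    obtain ⟨θ, hθ⟩ : ∃ θ, θ = ⁅x, C x [y1, y2, y3]⁆ := ⟨_, rfl⟩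
    have hH : ∀ j < 3, PP M x j := fun j hj => h.pp_small hx hj
    have hc := fun y (hy : y ∈ [y1, y2, y3]) => h.central hx hl hH hy
    have hθx : Commute θ x := hθ ▸ (hc y1 (by simp)).2
    have hθv : ∀ i, Commute θ (v i) := by
      intro i
      fin_cases i
      · rw [hvd, hθ]; exact (hc y1 (by simp)).1
      · rw [hvd, hθ]; exact (hc y2 (by simp)).1
      · rw [hvd, hθ]; exact (hc y3 (by simp)).1
    have h1 : ∀ s : List (Fin 3), ⁅x, C x (s.map v)⁆ = θ ^ f s := by
      intro s
      rcases Nat.lt_trichotomy s.length 3 with h3 | h3 | h3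
      · rw [f_len (by omega), pow_zero]
        exact comm_one (h.pp_small hx h3 _ (map_mem hv s) (by rw [List.length_map]))
      · by_cases hf : f s = 0
        · rw [h.rep3 hx hv h3 hf, hf, pow_zero, commutatorElement_one_right]
        · have h4 : f s = 1 ∧ s.Perm [0, 1, 2] := by
            match s, h3 with
            | [i, j, k], _ => exact f_perm hf
          rw [h4.1, pow_one, hθ, ← hvl]
          have h5 := h.perm hx hH (h4.2.map v) [] (by simpa using map_mem hv s) (by simp [h3])
          simpa using h5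
      · rw [f_len (by omega), pow_zero]
        rcases Nat.lt_or_ge s.length 5 with h4 | h4
        · exact comm_one (h.four_comm hx hv (s := s) (by omega)).1
        · rw [h.five hx hv h4, commutatorElement_one_right]
    obtain ⟨k1, k2, k3, k4⟩ := cubes v h1 hθx hθv
    have hg : Commute θ (v 0 * v 1 * v 2) := ((hθv 0).mul_right (hθv 1)).mul_right (hθv 2)
    have h2 := fifth h.exp hθx hg k1 k2 k3 k4
    have h3 : θ = 1 := by
      have h4 : (θ ^ 5) ^ 29 * θ = 1 := by
        rw [← pow_mul, ← pow_succ]; exact h2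
      rwa [h.exp, one_pow, one_mul] at h4
    rw [hθ] at h3
    exact of_comm_one h3

/-- the general case -/
theorem CS.pp_step (h : CS M) {k : ℕ} (hk : 4 ≤ k) (H : ∀ j < k, ∀ x ∈ M, PP M x j) {x : G}
    (hx : x ∈ M) : PP M x k := by
  intro l hl hn
  match l, hn with
  | [], hn => simp at hn; omega
  | [_], hn => simp at hn; omega
  | [_, _], hn => simp at hn; omega
  | y1 :: y2 :: y3 :: l0, hn =>
    have hl0 : ∀ y ∈ l0, y ∈ M := fun y hy => hl y (by simp [hy])
    have hlen : l0.length + 3 = k := by simpa using hn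
    obtain ⟨v, hvd⟩ : ∃ v : Fin 3 → G, v = ![y1, y2, y3] := ⟨_, rfl⟩
    have hv : ∀ i, v i ∈ M := by
      intro i
      fin_cases i
      · rw [hvd]; exact hl y1 (by simp)
      · rw [hvd]; exact hl y2 (by simp)
      · rw [hvd]; exact hl y3 (by simp)
    have hvl : [0, 1, 2].map v = [y1, y2, y3] := by rw [hvd]; rfl
    obtain ⟨θ, hθ⟩ : ∃ θ, θ = ⁅x, C x (y1 :: y2 :: y3 :: l0)⁆ := ⟨_, rfl⟩
    have hH : ∀ j < k, PP M x j := fun j hj => H j hj x hx
    have hc := fun y (hy : y ∈ y1 :: y2 :: y3 :: l0) => h.central hx hl (hn ▸ hH) hy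
    have hθx : Commute θ x := hθ ▸ (hc y1 (by simp)).2
    have hθv : ∀ i, Commute θ (v i) := by
      intro i
      fin_cases i
      · rw [hvd, hθ]; exact (hc y1 (by simp)).1
      · rw [hvd, hθ]; exact (hc y2 (by simp)).1
      · rw [hvd, hθ]; exact (hc y3 (by simp)).1
    obtain ⟨t, htd⟩ : ∃ t, t = C x l0 := ⟨_, rfl⟩
    have ht : t ∈ M := htd ▸ h.C_mem hx hl0
    have hθt : Commute θ t := by
      rw [htd]
      refine comm_C hθx fun y hy => ?_
      rw [hθ]; exact (hc y (by simp [hy])).1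
    -- long words vanish
    have long : ∀ u ∈ M, ∀ s : List (Fin 3), 4 ≤ s.length → C u (s.map v) = 1 := by
      intro u hu s hs
      rcases Nat.lt_or_ge s.length 5 with h4 | h4
      · rcases h.four hu hv (s := s) (by omega) with h1 | ⟨p, q, r, -, h1⟩
        · exact h1
        · rw [h1, inv_eq_one]
          refine comm_one (H 3 (by omega) _ (hv r) _ ?_ rfl)
          intro y hy
          simp only [List.mem_cons, List.not_mem_nil, or_false] at hy
          rcases hy with rfl | rfl | rfl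
          · exact hv _
          · exact hv _
          · exact hu
      · exact h.five hu hv h4
    have self : ∀ u ∈ M, ∀ s : List (Fin 3), ⁅u, C u (s.map v)⁆ = (1 : G) ^ f s := by
      intro u hu s
      rw [one_pow]
      rcases Nat.lt_or_ge s.length 4 with h4 | h4
      · exact comm_one (H s.length (by omega) u hu _ (map_mem hv s) (by rw [List.length_map]))
      · rw [long u hu s h4, commutatorElement_one_right]
    have h1 : ∀ s : List (Fin 3), ⁅x, C t (s.map v)⁆ = θ ^ f s := by
      intro s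
      rcases Nat.lt_trichotomy s.length 3 with h3 | h3 | h3
      · rw [f_len (by omega), pow_zero, htd, ← C_append]
        refine comm_one (hH (s.length + l0.length) (by omega) _ ?_ (by simp))
        intro y hy
        rw [List.mem_append] at hy
        rcases hy with hy | hy
        · exact map_mem hv s y hy
        · exact hl0 y hy
      · by_cases hf : f s = 0
        · rw [h.rep3 ht hv h3 hf, hf, pow_zero, commutatorElement_one_right]
        · have h4 : f s = 1 ∧ s.Perm [0, 1, 2] := by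
            match s, h3 with
            | [i, j, k], _ => exact f_perm hf
          rw [h4.1, pow_one, hθ, htd, ← C_append]
          have h5 := h.perm hx hH ((h4.2.map v).append_right l0) [] (by
            intro y hy
            rw [List.nil_append, List.mem_append] at hy
            rcases hy with hy | hy
            · exact map_mem hv s y hy
            · exact hl0 y hy) (by
              rw [List.nil_append, List.length_append, List.length_map, h3]; omega)
          rw [List.nil_append, List.nil_append, hvl] at h5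
          exact h5
      · rw [f_len (by omega), pow_zero, long t ht s h3, commutatorElement_one_right]
    obtain ⟨k1, k2, k3, k4⟩ := cubes v h1 hθt hθv
    obtain ⟨x1, x2, x3, x4⟩ := cubes v (self x hx) (Commute.one_left _) (fun _ => Commute.one_left _)
    obtain ⟨t1, t2, t3, t4⟩ := cubes v (self t ht) (Commute.one_left _) (fun _ => Commute.one_left _)
    simp only [one_pow] at x1 x2 x3 x4 t1 t2 t3 t4
    obtain ⟨g, hgd⟩ : ∃ g, g = v 0 * v 1 * v 2 := ⟨_, rfl⟩
    rw [← hgd] at k1 k2 k3 k4 x1 x2 x3 x4 t1 t2 t3 t4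
    have hg : Commute θ g := hgd ▸ ((hθv 0).mul_right (hθv 1)).mul_right (hθv 2)
    have hxt : Commute θ (x * t) := hθx.mul_right hθt
    have h5 := h.exp
    -- the commutators of `t` with the conjugates of `x`
    have rev : ∀ d e n m : ℕ, d + e = 5 → ⁅x, g ^ e * t * (g ^ e)⁻¹⁆ = θ ^ n → 5 ∣ n + m →
        ⁅t, g ^ d * x * (g ^ d)⁻¹⁆ = θ ^ m := by
      intro d e n m hde hk hnm
      have r1 : g ^ d * ⁅x, g ^ e * t * (g ^ e)⁻¹⁆ * (g ^ d)⁻¹ = ⁅g ^ d * x * (g ^ d)⁻¹, t⁆ := by
        rw [conj_comm]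
        congr 1
        have r2 : g ^ d * (g ^ e * t * (g ^ e)⁻¹) * (g ^ d)⁻¹ =
            g ^ (d + e) * t * (g ^ (d + e))⁻¹ := by rw [pow_add]; group
        rw [r2, hde, h5]; group
      rw [hk] at r1
      have r3 : g ^ d * θ ^ n * (g ^ d)⁻¹ = θ ^ n := by
        rw [(hg.pow_pow n d).symm.eq]; group
      rw [r3] at r1
      have r4 : ⁅t, g ^ d * x * (g ^ d)⁻¹⁆ = (θ ^ n)⁻¹ := by rw [r1, commutatorElement_inv]
      rw [r4]
      obtain ⟨c, hc⟩ := hnm
      rw [inv_eq_iff_mul_eq_one, ← pow_add, hc, pow_mul, h5, one_pow]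
    have s1 := rev 1 4 64 1 rfl k4 ⟨13, rfl⟩
    have s2 := rev 2 3 27 3 rfl k3 ⟨6, rfl⟩
    have s3 := rev 3 2 8 2 rfl k2 ⟨2, rfl⟩
    have s4 := rev 4 1 1 4 rfl k1 ⟨1, rfl⟩
    have both : ∀ d n m : ℕ, ⁅x, g ^ d * t * (g ^ d)⁻¹⁆ = θ ^ n → ⁅t, g ^ d * x * (g ^ d)⁻¹⁆ = θ ^ m →
        ⁅x, g ^ d * x * (g ^ d)⁻¹⁆ = 1 → ⁅t, g ^ d * t * (g ^ d)⁻¹⁆ = 1 →
        ⁅x * t, g ^ d * (x * t) * (g ^ d)⁻¹⁆ = θ ^ (m + n) := by
      intro d n m b1 b2 b3 b4
      obtain ⟨xd, hxd⟩ : ∃ xd, xd = g ^ d * x * (g ^ d)⁻¹ := ⟨_, rfl⟩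
      obtain ⟨td, htd'⟩ : ∃ td, td = g ^ d * t * (g ^ d)⁻¹ := ⟨_, rfl⟩
      have c1 : g ^ d * (x * t) * (g ^ d)⁻¹ = xd * td := by rw [hxd, htd']; group
      rw [← hxd] at b2 b3
      rw [← htd'] at b1 b4
      have c2 : ⁅x * t, xd⁆ = θ ^ m := by
        have : ⁅x * t, xd⁆ = x * ⁅t, xd⁆ * x⁻¹ * ⁅x, xd⁆ := by
          simp only [commutatorElement_def]; group
        rw [this, b2, b3, mul_one, ← (hθx.pow_left m).eq]; group
      have c3 : ⁅x * t, td⁆ = θ ^ n := by
        have : ⁅x * t, td⁆ = x * ⁅t, td⁆ * x⁻¹ * ⁅x, td⁆ := by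
          simp only [commutatorElement_def]; group
        rw [this, b4, b1]; group
      have c4 : Commute xd (θ ^ n) := by
        rw [hxd]
        exact ((((hg.pow_right d).mul_right hθx).mul_right (hg.pow_right d).inv_right).pow_left n).symm
      rw [c1, comm_mul, c2, c3, c4.eq, pow_add]; group
    have h6 := fifth h5 hxt hg (both 1 1 1 k1 s1 x1 t1) (both 2 8 3 k2 s2 x2 t2)
      (both 3 27 2 k3 s3 x3 t3) (both 4 64 4 k4 s4 x4 t4)
    have h7 : θ = 1 := by
      have h8 : (θ ^ 5) ^ 33 * θ ^ 2 = 1 := by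
        rw [← pow_mul, ← pow_add]; exact h6
      rw [h5, one_pow, one_mul] at h8
      have h9 : θ ^ 5 = (θ ^ 2) ^ 2 * θ := by rw [← pow_mul, ← pow_succ]
      rw [h5, h8, one_pow, one_mul] at h9
      exact h9.symm
    rw [hθ] at h7
    exact of_comm_one h7

theorem CS.pp (h : CS M) (k : ℕ) : ∀ x ∈ M, PP M x k := by
  induction k using Nat.strong_induction_on with
  | _ k ih =>
    intro x hx
    rcases Nat.lt_or_ge k 3 with h1 | h1
    · exact h.pp_small hx h1
    · rcases Nat.lt_or_ge k 4 with h2 | h2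
      · have : k = 3 := by omega
        subst this
        exact h.pp_three hx
      · exact h.pp_step h2 (fun j hj x hx => ih j hj x hx) hx

/-- The elements of a sandwich set commute with their conjugates. -/
theorem sandwich (h5 : ∀ g : G, g ^ 5 = 1) {X : Set G} (hX : SW X) {x h : G} (hx : x ∈ X)
    (hh : h ∈ Subgroup.closure X) : Commute x (h * x * h⁻¹) := by
  obtain ⟨M, hXM, hM, hMc⟩ := exists_max h5 hX
  have hCS : CS M := ⟨hM, h5, hMc⟩
  have h1 : ∃ l : List G, (∀ y ∈ l, y ∈ M) ∧ l.prod = h := by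
    induction hh using Subgroup.closure_induction with
    | mem y hy => exact ⟨[y], by simpa using hXM hy, by simp⟩
    | one => exact ⟨[], by simp, rfl⟩
    | mul a b _ _ ha hb =>
      obtain ⟨l, hl, rfl⟩ := ha
      obtain ⟨l', hl', rfl⟩ := hb
      refine ⟨l ++ l', ?_, List.prod_append⟩
      intro y hy
      rw [List.mem_append] at hy
      rcases hy with hy | hy
      · exact hl y hy
      · exact hl' y hy
    | inv a _ ha =>
      obtain ⟨l, hl, rfl⟩ := ha
      refine ⟨l ++ l ++ l ++ l, ?_, ?_⟩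
      · intro y hy
        simp only [List.mem_append] at hy
        rcases hy with ((hy | hy) | hy) | hy <;> exact hl y hy
      · rw [List.prod_append, List.prod_append, List.prod_append, eq_inv_iff_mul_eq_one]
        have := h5 l.prod
        simpa [pow_succ, mul_assoc] using this
  obtain ⟨l, hl, rfl⟩ := h1
  have h2 := conj_expand (fun y : G => y) x l
  rw [List.map_id'] at h2
  rw [h2]
  refine Commute.list_prod_right _ _ fun y hy => ?_
  rw [List.mem_map] at hy
  obtain ⟨s, hs, rfl⟩ := hy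
  rw [List.map_id']
  exact hCS.pp s.length x (hXM hx) s (fun y hy => hl y (S_subset hs y hy)) rfl

end Pool.Agent.X267.Sand
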