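import Pool.Agent.X267.Wr

set_option autoImplicit false

/-!
# Subgroups of wreath products with few generators

Let `Q` be a finite group generated by `m` elements, and let `P` be generated by `(m - 1) |Q| + 1`
elements. Then `P` is a section of an `m`-generator subgroup of the regular wreath product of `P` and
`Q`. The proof labels the edges of the Cayley graph of `Q` outside a spanning tree by the generators
of `P`.
-/

namespace Pool.Agent.X267.Wr

open Subgroup

universe u v

section
variable {Q : Type v} [Group Q] {m : ℕ} (s : Fin m → Q)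

/-- the vertices which can be reached from `1` along edges in `T` -/
inductive Reach (T : Set (Q × Fin m)) : Q → Prop
  | one : Reach T 1
  | fwd (x : Q) (i : Fin m) : Reach T x → (x, i) ∈ T → Reach T ((s i)⁻¹ * x)
  | bwd (x : Q) (i : Fin m) : Reach T x → (s i * x, i) ∈ T → Reach T (s i * x)

theorem Reach.mono {T T' : Set (Q × Fin m)} (h : T ⊆ T') {x : Q} (hx : Reach s T x) :
    Reach s T' x := by
  induction hx with
  | one => exact Reach.one
  | fwd x i _ he ih => exact Reach.fwd x i ih (h he)
  | bwd x i _ he ih => exact Reach.bwd x i ih (h he)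

theorem step_out (hs : closure (Set.range s) = ⊤) (A : Set Q) (h1 : (1 : Q) ∈ A) (hA : A ≠ Set.univ) :
    ∃ x ∈ A, ∃ i, (s i)⁻¹ * x ∉ A ∨ s i * x ∉ A := by
  by_contra hcon
  push Not at hcon
  apply hA
  rw [Set.eq_univ_iff_forall]
  intro g
  have hg : g ∈ closure (Set.range s) := by rw [hs]; trivial
  have key : ∀ x ∈ A, g * x ∈ A ∧ g⁻¹ * x ∈ A := by
    induction hg using closure_induction with
    | mem y hy =>
      obtain ⟨i, rfl⟩ := hy
      exact fun x hx => ⟨(hcon x hx i).2, (hcon x hx i).1⟩
    | one => intro x hx; simpa using hx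
    | mul a b _ _ ha hb =>
      intro x hx
      refine ⟨?_, ?_⟩
      · rw [mul_assoc]
        exact (ha _ (hb x hx).1).1
      · rw [mul_inv_rev, mul_assoc]
        exact (hb _ (ha x hx).2).2
    | inv a _ ha =>
      intro x hx
      rw [inv_inv]
      exact ⟨(ha x hx).2, (ha x hx).1⟩
  simpa using (key 1 h1).1

theorem exists_tree [Fintype Q] (hs : closure (Set.range s) = ⊤) (n : ℕ) :
    n + 1 ≤ Fintype.card Q → ∃ (A : Finset Q) (T : Finset (Q × Fin m)),
      A.card = n + 1 ∧ T.card = n ∧ (1 : Q) ∈ A ∧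
      (∀ x ∈ A, Reach s (T : Set (Q × Fin m)) x) ∧
      ∀ e ∈ T, e.1 ∈ A ∧ (s e.2)⁻¹ * e.1 ∈ A := by
  classical
  induction n with
  | zero =>
    intro _
    refine ⟨{1}, ∅, by simp, by simp, by simp, ?_, by simp⟩
    intro x hx
    rw [Finset.mem_singleton] at hx
    rw [hx]
    exact Reach.one
  | succ n ih =>
    intro hn
    obtain ⟨A, T, hA, hT, h1, hr, he⟩ := ih (by omega)
    have hne : (A : Set Q) ≠ Set.univ := by
      intro h
      have h2 : A = Finset.univ := by
        rw [← Finset.coe_eq_univ]; exact h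
      rw [h2, Finset.card_univ] at hA
      omega
    obtain ⟨x, hx, i, hi⟩ := step_out s hs (A : Set Q) h1 hne
    have hx' : x ∈ A := hx
    rcases hi with hi | hi
    · have hi' : (s i)⁻¹ * x ∉ A := hi
      have hnT : (x, i) ∉ T := fun h => hi' (he _ h).2
      refine ⟨insert ((s i)⁻¹ * x) A, insert (x, i) T, ?_, ?_, ?_, ?_, ?_⟩
      · rw [Finset.card_insert_of_notMem hi', hA]
      · rw [Finset.card_insert_of_notMem hnT, hT]
      · exact Finset.mem_insert_of_mem h1
      · have hsub : (T : Set (Q × Fin m)) ⊆ (insert (x, i) T : Finset (Q × Fin m)) := by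
          intro e he'
          exact Finset.mem_coe.2 (Finset.mem_insert_of_mem he')
        intro y hy
        rw [Finset.mem_insert] at hy
        rcases hy with rfl | hy
        · exact Reach.fwd x i ((hr x hx').mono s hsub) (Finset.mem_coe.2 (Finset.mem_insert_self _ _))
        · exact (hr y hy).mono s hsub
      · intro e he'
        rw [Finset.mem_insert] at he'
        rcases he' with rfl | he'
        · exact ⟨Finset.mem_insert_of_mem hx', Finset.mem_insert_self _ _⟩
        · exact ⟨Finset.mem_insert_of_mem (he e he').1, Finset.mem_insert_of_mem (he e he').2⟩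
    · have hi' : s i * x ∉ A := hi
      have hnT : (s i * x, i) ∉ T := fun h => hi' (he _ h).1
      refine ⟨insert (s i * x) A, insert (s i * x, i) T, ?_, ?_, ?_, ?_, ?_⟩
      · rw [Finset.card_insert_of_notMem hi', hA]
      · rw [Finset.card_insert_of_notMem hnT, hT]
      · exact Finset.mem_insert_of_mem h1
      · have hsub : (T : Set (Q × Fin m)) ⊆ (insert (s i * x, i) T : Finset (Q × Fin m)) := by
          intro e he'
          exact Finset.mem_coe.2 (Finset.mem_insert_of_mem he')
        intro y hy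
        rw [Finset.mem_insert] at hy
        rcases hy with rfl | hy
        · exact Reach.bwd x i ((hr x hx').mono s hsub) (Finset.mem_coe.2 (Finset.mem_insert_self _ _))
        · exact (hr y hy).mono s hsub
      · intro e he'
        rw [Finset.mem_insert] at he'
        rcases he' with rfl | he'
        · refine ⟨Finset.mem_insert_self _ _, Finset.mem_insert_of_mem ?_⟩
          simpa using hx'
        · exact ⟨Finset.mem_insert_of_mem (he e he').1, Finset.mem_insert_of_mem (he e he').2⟩

end

section
variable {P : Type u} {Q : Type v} [Group P] [Group Q] {m : ℕ} (s : Fin m → Q)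

/-- the elements of the wreath product with top components `s i` and labels `l` -/
def gens (l : Q × Fin m → P) (i : Fin m) : P ≀ᵣ Q := ⟨fun x => l (x, i), s i⟩

theorem path_of_reach (l : Q × Fin m → P) (T : Set (Q × Fin m)) (hl : ∀ e ∈ T, l e = 1) {x : Q}
    (hx : Reach s T x) :
    ∃ h ∈ (closure (Set.range (gens s l)) : Subgroup (P ≀ᵣ Q)), h.right = x⁻¹ ∧ h.left 1 = 1 := by
  induction hx with
  | one => exact ⟨1, one_mem _, by simp, by simp⟩
  | fwd x i _ he ih =>
    obtain ⟨h, hh, h1, h2⟩ := ih
    refine ⟨h * gens s l i, mul_mem hh (subset_closure ⟨i, rfl⟩), ?_, ?_⟩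
    · rw [RegularWreathProduct.mul_right, h1]
      simp [gens]
    · rw [RegularWreathProduct.mul_left, Pi.mul_apply, h1, h2]
      simp [gens, hl _ he]
  | bwd x i _ he ih =>
    obtain ⟨h, hh, h1, h2⟩ := ih
    refine ⟨h * (gens s l i)⁻¹, mul_mem hh (inv_mem (subset_closure ⟨i, rfl⟩)), ?_, ?_⟩
    · rw [RegularWreathProduct.mul_right, h1]
      simp [gens]
    · rw [RegularWreathProduct.mul_left, Pi.mul_apply, h1, h2]
      simp [gens, hl _ he]

theorem label_mem_core (l : Q × Fin m → P) (T : Set (Q × Fin m)) (hl : ∀ e ∈ T, l e = 1)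
    (hT : ∀ x, Reach s T x) (e : Q × Fin m) :
    l e ∈ core (closure (Set.range (gens s l)) : Subgroup (P ≀ᵣ Q)) := by
  obtain ⟨x, i⟩ := e
  obtain ⟨h, hh, h1, h2⟩ := path_of_reach s l T hl (hT x)
  obtain ⟨k, hk, k1, k2⟩ := path_of_reach s l T hl (hT ((s i)⁻¹ * x))
  refine ⟨h * gens s l i * k⁻¹, mul_mem (mul_mem hh (subset_closure ⟨i, rfl⟩)) (inv_mem hk), ?_, ?_⟩
  · simp [h1, k1, gens]
  · simp [h1, h2, k1, k2, gens, mul_assoc]

/-- Let `Q` be a finite group generated by `m` elements and `P` a group generated by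
`(m - 1) |Q| + 1` elements. Then `P` is a section of an `m`-generator subgroup of `P ≀ Q`. -/
theorem exists_gens [Finite Q] (hm : 1 ≤ m) (hs : closure (Set.range s) = ⊤)
    (p : Fin ((m - 1) * Nat.card Q + 1) → P) (hp : closure (Set.range p) = ⊤) :
    ∃ w : Fin m → P ≀ᵣ Q, core (closure (Set.range w)) = ⊤ := by
  classical
  have := Fintype.ofFinite Q
  have hq : 1 ≤ Fintype.card Q := Fintype.card_pos
  obtain ⟨A, T, hA, hT, -, hr, -⟩ := exists_tree s hs (Fintype.card Q - 1) (by omega)
  have hAu : A = Finset.univ := by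
    rw [← Finset.card_eq_iff_eq_univ]; omega
  have hr' : ∀ x, Reach s (T : Set (Q × Fin m)) x := fun x => hr x (by rw [hAu]; simp)
  -- the edges outside the tree
  have hcard : Fintype.card {e : Q × Fin m // e ∉ T} = (m - 1) * Nat.card Q + 1 := by
    rw [Fintype.card_subtype_compl, Fintype.card_prod, Fintype.card_fin, Fintype.card_coe, hT,
      Nat.card_eq_fintype_card]
    obtain ⟨m, rfl⟩ : ∃ k, m = k + 1 := ⟨m - 1, by omega⟩
    obtain ⟨q, hq'⟩ : ∃ k, Fintype.card Q = k + 1 := ⟨Fintype.card Q - 1, by omega⟩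
    rw [hq']
    simp only [Nat.add_sub_cancel]
    have : (q + 1) * (m + 1) = m * (q + 1) + 1 + q := by ring
    omega
  let e := Fintype.equivFinOfCardEq hcard
  let l : Q × Fin m → P := fun x => if h : x ∈ T then 1 else p (e ⟨x, h⟩)
  have hl : ∀ x ∈ (T : Set (Q × Fin m)), l x = 1 := by
    intro x hx
    have hx' : x ∈ T := hx
    simp [l, hx']
  refine ⟨gens s l, ?_⟩
  rw [eq_top_iff, ← hp, closure_le]
  rintro _ ⟨j, rfl⟩
  have hj : l (e.symm j).1 = p j := by
    simp only [l]
    rw [dif_neg (e.symm j).2]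
    congr 1
    exact e.apply_symm_apply j
  rw [← hj]
  exact label_mem_core s l T hl hr' _

end

end Pool.Agent.X267.Wr
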