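import Mathlib

set_option autoImplicit false

/-!
# Wreath products: groups of exponent `a` as sections of groups of exponent `b * a` with few
generators
-/

namespace Pool.Agent.X267.Wr

open Subgroup

universe u v

section
variable {P : Type u} {Q : Type v} [Group P] [Group Q]

/-- the exponent of a wreath product -/
theorem exp_wreath {a b : ℕ} (hP : ∀ p : P, p ^ a = 1) (hQ : ∀ q : Q, q ^ b = 1) (w : P ≀ᵣ Q) :
    w ^ (b * a) = 1 := by
  have h1 : (w ^ b).right = 1 := by
    have := map_pow (RegularWreathProduct.rightHom : P ≀ᵣ Q →* Q) w b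
    simpa [hQ] using this
  rw [pow_mul]
  have h2 : ∀ n : ℕ, ((w ^ b) ^ n).left = (w ^ b).left ^ n ∧ ((w ^ b) ^ n).right = 1 := by
    intro n
    induction n with
    | zero => simp
    | succ n ih =>
      rw [pow_succ]
      refine ⟨?_, by simp [ih.2, h1]⟩
      rw [RegularWreathProduct.mul_left, ih.1, ih.2]
      funext x
      simp [pow_succ]
  refine RegularWreathProduct.ext ?_ (h2 a).2
  rw [(h2 a).1]
  funext x
  simp [hP]

/-- the values at `1` of the elements of `H` in the base group -/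
def core (H : Subgroup (P ≀ᵣ Q)) : Subgroup P where
  carrier := {p | ∃ h ∈ H, h.right = 1 ∧ h.left 1 = p}
  one_mem' := ⟨1, one_mem _, rfl, rfl⟩
  mul_mem' := by
    rintro p q ⟨h, hh, h1, rfl⟩ ⟨k, hk, k1, rfl⟩
    exact ⟨h * k, mul_mem hh hk, by simp [h1, k1], by simp [h1]⟩
  inv_mem' := by
    rintro p ⟨h, hh, h1, rfl⟩
    exact ⟨h⁻¹, inv_mem hh, by simp [h1], by simp [h1]⟩

theorem mem_core {H : Subgroup (P ≀ᵣ Q)} {p : P} :
    p ∈ core H ↔ ∃ h ∈ H, h.right = 1 ∧ h.left 1 = p := Iff.rfl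

theorem finite_core (H : Subgroup (P ≀ᵣ Q)) (hf : Finite H) : Finite (core H) := by
  have h1 : ((fun h : H => (h : P ≀ᵣ Q).left 1) '' Set.univ).Finite := Set.toFinite _
  refine Set.Finite.to_subtype (h1.subset ?_)
  rintro p ⟨h, hh, -, rfl⟩
  exact ⟨⟨h, hh⟩, trivial, rfl⟩

theorem finite_of_core (H : Subgroup (P ≀ᵣ Q)) (hf : Finite H) (h : core H = ⊤) : Finite P := by
  have h1 := finite_core H hf
  rw [h] at h1
  exact Finite.of_equiv _ (Subgroup.topEquiv (G := P)).toEquiv

/-- conjugation of base elements -/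
theorem conj_left (X Y : P ≀ᵣ Q) (hY : Y.right = 1) :
    (X * Y * X⁻¹).right = 1 ∧
      (X * Y * X⁻¹).left 1 = X.left 1 * Y.left X.right⁻¹ * (X.left 1)⁻¹ := by
  constructor
  · simp [hY]
  · simp [hY]

end

section cyc
variable {P : Type u} [Group P] (k : ℕ) [NeZero k] (p : Fin (k + 1) → P)

abbrev C (k : ℕ) : Type := Multiplicative (ZMod k)

/-- the generator of the cyclic group -/
def sg (k : ℕ) : C k := Multiplicative.ofAdd (1 : ZMod k)

theorem sg_pow (i : ℕ) : sg k ^ i = Multiplicative.ofAdd (i : ZMod k) := by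
  rw [sg, ← ofAdd_nsmul, nsmul_one]

theorem c_pow (x : C k) : x ^ k = 1 := by
  obtain ⟨x, rfl⟩ := Multiplicative.ofAdd.surjective x
  rw [← ofAdd_nsmul, nsmul_eq_mul, CharP.cast_eq_zero, zero_mul]
  rfl

/-- the first generator -/
def X : P ≀ᵣ C k := ⟨fun x => open Classical in if x = 1 then p 0 else 1, sg k⟩

/-- the second generator -/
def Y : P ≀ᵣ C k :=
  ⟨fun x => p ⟨(Multiplicative.toAdd x).val + 1, by
    have := ZMod.val_lt (Multiplicative.toAdd x); omega⟩, 1⟩

theorem X_pow_right (i : ℕ) : (X k p ^ i).right = sg k ^ i :=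
  map_pow (RegularWreathProduct.rightHom : P ≀ᵣ C k →* C k) (X k p) i

theorem X_pow_left (i : ℕ) (h1 : 1 ≤ i) (hk : i ≤ k) : (X k p ^ i).left 1 = p 0 := by
  induction i with
  | zero => omega
  | succ i ih =>
    rw [pow_succ, RegularWreathProduct.mul_left, Pi.mul_apply, X_pow_right, mul_one]
    rcases Nat.eq_zero_or_pos i with rfl | hi
    · simp [X]
    · rw [ih hi (by omega)]
      have : (sg k ^ i)⁻¹ ≠ 1 := by
        rw [inv_ne_one, sg_pow]
        intro h
        have h2 : ((i : ℕ) : ZMod k) = 0 := by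
          have := congrArg Multiplicative.toAdd h
          simpa using this
        rw [ZMod.natCast_eq_zero_iff] at h2
        exact absurd (Nat.le_of_dvd hi h2) (by omega)
      simp [X, this]

theorem core_top (hp : closure (Set.range p) = ⊤) :
    core (closure {X k p, Y k p} : Subgroup (P ≀ᵣ C k)) = ⊤ := by
  have hX : X k p ∈ (closure {X k p, Y k p} : Subgroup (P ≀ᵣ C k)) := subset_closure (by simp)
  have hY : Y k p ∈ (closure {X k p, Y k p} : Subgroup (P ≀ᵣ C k)) := subset_closure (by simp)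
  have hk : 1 ≤ k := Nat.one_le_iff_ne_zero.mpr (NeZero.ne k)
  have h0 : p 0 ∈ core (closure {X k p, Y k p} : Subgroup (P ≀ᵣ C k)) :=
    ⟨X k p ^ k, pow_mem hX k, by rw [X_pow_right, c_pow], X_pow_left k p k hk le_rfl⟩
  rw [eq_top_iff, ← hp, closure_le]
  rintro _ ⟨j, rfl⟩
  rcases Fin.eq_zero_or_eq_succ j with rfl | ⟨j, rfl⟩
  · exact h0
  · -- the coordinate
    obtain ⟨i, hi⟩ : ∃ i, i = (-(j.1 : ZMod k)).val := ⟨_, rfl⟩
    have hik : i < k := by rw [hi]; exact ZMod.val_lt _
    have hc := conj_left (X k p ^ i) (Y k p) rfl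
    have hm : X k p ^ i * Y k p * (X k p ^ i)⁻¹ ∈
        (closure {X k p, Y k p} : Subgroup (P ≀ᵣ C k)) :=
      mul_mem (mul_mem (pow_mem hX i) hY) (inv_mem (pow_mem hX i))
    have hv : (Y k p).left (X k p ^ i).right⁻¹ = p j.succ := by
      rw [X_pow_right, sg_pow, Y]
      have h3 : Multiplicative.toAdd (Multiplicative.ofAdd ((i : ℕ) : ZMod k))⁻¹ = (j.1 : ZMod k) := by
        rw [hi]
        simp
      have h4 : (Multiplicative.toAdd (Multiplicative.ofAdd ((i : ℕ) : ZMod k))⁻¹).val = j.1 := by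
        rw [h3]
        exact ZMod.val_cast_of_lt j.2
      refine congrArg p (Fin.ext ?_)
      change (Multiplicative.toAdd (Multiplicative.ofAdd ((i : ℕ) : ZMod k))⁻¹).val + 1 = j.1 + 1
      rw [h4]
    rcases Nat.eq_zero_or_pos i with hi0 | hi0
    · refine ⟨_, hm, hc.1, ?_⟩
      rw [hc.2, hv, hi0]
      simp
    · have h5 : p 0 * p j.succ * (p 0)⁻¹ ∈
          core (closure {X k p, Y k p} : Subgroup (P ≀ᵣ C k)) := by
        refine ⟨_, hm, hc.1, ?_⟩
        rw [hc.2, hv, X_pow_left k p i hi0 hik.le]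
      have h6 := mul_mem (mul_mem (inv_mem h0) h5) h0
      have h7 : (p 0)⁻¹ * (p 0 * p j.succ * (p 0)⁻¹) * p 0 = p j.succ := by group
      rwa [h7] at h6

/-- A group of exponent `a` with `k + 1` generators is finite if the two-generator groups of exponent
`k * a` are. -/
theorem finite_of_two {a : ℕ} (hP : ∀ x : P, x ^ a = 1) (hp : closure (Set.range p) = ⊤)
    (h2 : ∀ (W : Type u) [Group W], (∀ x : W, x ^ (k * a) = 1) → ∀ x y : W,
      Finite (closure ({x, y} : Set W))) : Finite P := by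
  refine finite_of_core (closure {X k p, Y k p} : Subgroup (P ≀ᵣ C k)) ?_ (core_top k p hp)
  exact h2 _ (exp_wreath hP (c_pow k)) _ _

end cyc

end Pool.Agent.X267.Wr
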